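import Mathlib

set_option autoImplicit false

namespace Pool.Agent.R493.MU

open Finset NumberField nonZeroDivisors

section

variable {N : Type} [Field N] [NumberField N]

/-- The action on the ring of integers. -/
noncomputable def ri (g : N ≃ₐ[ℚ] N) : 𝓞 N ≃+* 𝓞 N := RingOfIntegers.mapRingEquiv (g : N ≃+* N)

theorem ri_coe (g : N ≃ₐ[ℚ] N) (x : 𝓞 N) : algebraMap (𝓞 N) N (ri g x) = g (algebraMap (𝓞 N) N x) :=
  rfl

theorem ri_mul (g h : N ≃ₐ[ℚ] N) : ri (g * h) = (ri h).trans (ri g) := by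
  ext x
  rfl

theorem ri_one : ri (1 : N ≃ₐ[ℚ] N) = RingEquiv.refl _ := by
  ext x
  rfl

/-- The action on nonzero ideals. -/
noncomputable def ai (g : N ≃ₐ[ℚ] N) (I : (Ideal (𝓞 N))⁰) : (Ideal (𝓞 N))⁰ :=
  ⟨(I : Ideal (𝓞 N)).map (ri g), by
    rw [mem_nonZeroDivisors_iff_ne_zero]
    intro h
    apply nonZeroDivisors.coe_ne_zero I
    exact (Ideal.map_eq_bot_iff_of_injective (ri g).injective).1 h⟩

theorem ai_mul (g : N ≃ₐ[ℚ] N) (I J : (Ideal (𝓞 N))⁰) : ai g (I * J) = ai g I * ai g J := by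
  apply Subtype.ext
  simp [ai, Ideal.map_mul]

theorem ai_wd (g : N ≃ₐ[ℚ] N) (I J : (Ideal (𝓞 N))⁰) (h : ClassGroup.mk0 I = ClassGroup.mk0 J) :
    ClassGroup.mk0 (ai g I) = ClassGroup.mk0 (ai g J) := by
  rw [ClassGroup.mk0_eq_mk0_iff] at h ⊢
  obtain ⟨x, y, hx, hy, h⟩ := h
  refine ⟨ri g x, ri g y, ?_, ?_, ?_⟩
  · exact (map_ne_zero_iff _ (ri g).injective).2 hx
  · exact (map_ne_zero_iff _ (ri g).injective).2 hy
  · have h2 := congrArg (Ideal.map (ri g)) h
    rw [Ideal.map_mul, Ideal.map_mul, Ideal.map_span, Ideal.map_span, Set.image_singleton,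
      Set.image_singleton] at h2
    exact h2

/-- The action on the class group. -/
noncomputable def ac (g : N ≃ₐ[ℚ] N) : ClassGroup (𝓞 N) →* ClassGroup (𝓞 N) where
  toFun c := ClassGroup.mk0 (ai g (Function.surjInv ClassGroup.mk0_surjective c))
  map_one' := by
    have h : ClassGroup.mk0 (Function.surjInv ClassGroup.mk0_surjective (1 : ClassGroup (𝓞 N))) =
        ClassGroup.mk0 (1 : (Ideal (𝓞 N))⁰) := by
      rw [Function.surjInv_eq ClassGroup.mk0_surjective, map_one]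
    rw [ai_wd g _ _ h]
    have h2 : ai g (1 : (Ideal (𝓞 N))⁰) = 1 := by
      apply Subtype.ext
      simp [ai, Ideal.one_eq_top, Ideal.map_top]
    rw [h2, map_one]
  map_mul' a b := by
    rw [← map_mul, ← ai_mul]
    apply ai_wd
    rw [map_mul, Function.surjInv_eq ClassGroup.mk0_surjective,
      Function.surjInv_eq ClassGroup.mk0_surjective, Function.surjInv_eq ClassGroup.mk0_surjective]

theorem ac_mk0 (g : N ≃ₐ[ℚ] N) (I : (Ideal (𝓞 N))⁰) :
    ac g (ClassGroup.mk0 I) = ClassGroup.mk0 (ai g I) := by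
  show ClassGroup.mk0 (ai g (Function.surjInv ClassGroup.mk0_surjective (ClassGroup.mk0 I))) = _
  apply ai_wd
  rw [Function.surjInv_eq ClassGroup.mk0_surjective]

theorem ac_mul (g h : N ≃ₐ[ℚ] N) (c : ClassGroup (𝓞 N)) : ac (g * h) c = ac g (ac h c) := by
  obtain ⟨I, rfl⟩ := ClassGroup.mk0_surjective c
  rw [ac_mk0, ac_mk0, ac_mk0]
  congr 1
  apply Subtype.ext
  show (I : Ideal (𝓞 N)).map (ri (g * h) : 𝓞 N →+* 𝓞 N) =
    ((I : Ideal (𝓞 N)).map (ri h : 𝓞 N →+* 𝓞 N)).map (ri g : 𝓞 N →+* 𝓞 N)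
  rw [Ideal.map_map, ri_mul]
  rfl

theorem ac_one (c : ClassGroup (𝓞 N)) : ac (1 : N ≃ₐ[ℚ] N) c = c := by
  obtain ⟨I, rfl⟩ := ClassGroup.mk0_surjective c
  rw [ac_mk0]
  congr 1
  apply Subtype.ext
  show (I : Ideal (𝓞 N)).map (ri 1) = (I : Ideal (𝓞 N))
  rw [ri_one]
  exact Ideal.map_id _

theorem absNorm_ai (g : N ≃ₐ[ℚ] N) (I : Ideal (𝓞 N)) :
    Ideal.absNorm (I.map (ri g)) = Ideal.absNorm I := by
  rw [Ideal.absNorm_apply, Ideal.absNorm_apply, Submodule.cardQuot_apply, Submodule.cardQuot_apply]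
  exact Nat.card_congr (Ideal.quotientEquiv I (I.map (ri g)) (ri g) rfl).symm.toEquiv

/-- The product over a group of automorphisms is the extension of the relative norm. -/
theorem map_relNorm (H : Subgroup (N ≃ₐ[ℚ] N)) [Fintype H] (I : Ideal (𝓞 N)) (hI : I ≠ ⊥) :
    (Ideal.relNorm (𝓞 (IntermediateField.fixedField H)) I).map
      (algebraMap (𝓞 (IntermediateField.fixedField H)) (𝓞 N)) =
        ∏ h : H, I.map (ri (h : N ≃ₐ[ℚ] N)) := by
  classical
  have hgal : IsGalois (IntermediateField.fixedField H) N := IsGalois.of_fixed_field N H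
  -- the norm of elements
  have hnorm : ∀ x : 𝓞 N, algebraMap (𝓞 (IntermediateField.fixedField H)) (𝓞 N)
      (Algebra.intNorm (𝓞 (IntermediateField.fixedField H)) (𝓞 N) x) =
        ∏ h : H, ri (h : N ≃ₐ[ℚ] N) x := by
    intro x
    apply FaithfulSMul.algebraMap_injective (𝓞 N) N
    have h1 : algebraMap (𝓞 N) N (algebraMap (𝓞 (IntermediateField.fixedField H)) (𝓞 N)
        (Algebra.intNorm (𝓞 (IntermediateField.fixedField H)) (𝓞 N) x)) =
        algebraMap (IntermediateField.fixedField H) N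
          (algebraMap (𝓞 (IntermediateField.fixedField H)) (IntermediateField.fixedField H)
            (Algebra.intNorm (𝓞 (IntermediateField.fixedField H)) (𝓞 N) x)) := rfl
    rw [h1, Algebra.algebraMap_intNorm (K := IntermediateField.fixedField H) (L := N),
      Algebra.norm_eq_prod_automorphisms, map_prod]
    exact (Fintype.prod_equiv (IntermediateField.subgroupEquivAlgEquiv H).toEquiv _ _
      (fun h => rfl)).symm
  have hle : (Ideal.relNorm (𝓞 (IntermediateField.fixedField H)) I).map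
      (algebraMap (𝓞 (IntermediateField.fixedField H)) (𝓞 N)) ≤
        ∏ h : H, I.map (ri (h : N ≃ₐ[ℚ] N)) := by
    rw [Ideal.relNorm_apply, Ideal.map_span, Ideal.span_le]
    rintro _ ⟨_, ⟨x, hx, rfl⟩, rfl⟩
    rw [hnorm]
    exact Ideal.prod_mem_prod fun h _ => Ideal.mem_map_of_mem (ri (h : N ≃ₐ[ℚ] N)) hx
  obtain ⟨K, hK⟩ := Ideal.dvd_iff_le.2 hle
  have hcard : Module.finrank (IntermediateField.fixedField H) N = Fintype.card H := by
    rw [IntermediateField.finrank_fixedField_eq_card, Nat.card_eq_fintype_card]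
  have hn1 : Ideal.absNorm ((Ideal.relNorm (𝓞 (IntermediateField.fixedField H)) I).map
      (algebraMap (𝓞 (IntermediateField.fixedField H)) (𝓞 N))) =
        Ideal.absNorm I ^ Fintype.card H := by
    rw [Ideal.absNorm_algebraMap, Ideal.absNorm_relNorm, ← hcard]
    congr 1
    exact (IsFractionRing.finrank_eq (𝓞 (IntermediateField.fixedField H))
      (IntermediateField.fixedField H) (𝓞 N) N).symm
  have hn2 : Ideal.absNorm (∏ h : H, I.map (ri (h : N ≃ₐ[ℚ] N))) =
      Ideal.absNorm I ^ Fintype.card H := by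
    rw [map_prod, Finset.prod_congr rfl fun h _ => absNorm_ai _ _, Finset.prod_const,
      Finset.card_univ]
  have h3 := congrArg Ideal.absNorm hK
  rw [map_mul, hn1, hn2] at h3
  have h4 : Ideal.absNorm I ^ Fintype.card H ≠ 0 := by
    apply pow_ne_zero
    rw [Ne, Ideal.absNorm_eq_zero_iff]
    exact hI
  have h5 : Ideal.absNorm K = 1 := by
    have h6 : Ideal.absNorm I ^ Fintype.card H * 1 = Ideal.absNorm I ^ Fintype.card H *
        Ideal.absNorm K := by rw [mul_one]; exact h3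
    exact (Nat.eq_of_mul_eq_mul_left (Nat.pos_of_ne_zero h4) h6).symm
  rw [Ideal.absNorm_eq_one_iff] at h5
  rw [hK, h5, Ideal.mul_top]

end

end Pool.Agent.R493.MU
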