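import Pool.Agent.R493.MU.A

set_option autoImplicit false

namespace Pool.Agent.R493.MU

open Finset

/-- Left translation on `k[G]`. -/
noncomputable def lreg (k : Type) [Field k] (G : Type) [Group G] : Representation k G (G →₀ k) where
  toFun g := Finsupp.lmapDomain k k (g * ·)
  map_one' := by
    ext x
    simp
  map_mul' g h := by
    apply Finsupp.lhom_ext'
    intro x
    ext
    simp [Finsupp.mapDomain_single, mul_assoc]

theorem lreg_single {k : Type} [Field k] {G : Type} [Group G] (g x : G) (r : k) :
    lreg k G g (Finsupp.single x r) = Finsupp.single (g * x) r := by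
  simp [lreg, Finsupp.mapDomain_single]

/-- Either there is a representation modulo `p` where the elements of `T` have no nonzero fixed
vectors, or there is a norm relation modulo `p`. -/
theorem fpf_or_relation (p : ℕ) [Fact p.Prime] (G : Type) [Group G] [Fintype G] [DecidableEq G]
    (T : Set G) [Fintype T] (hT : ∀ t ∈ T, ¬ p ∣ orderOf t) :
    (∃ (W : Type) (_ : AddCommGroup W) (_ : Module (ZMod p) W) (_ : FiniteDimensional (ZMod p) W)
      (ρ : Representation (ZMod p) G W), Nontrivial W ∧ ∀ h ∈ T, ∀ w, ρ h w = w → w = 0) ∨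
    (∃ (c : G × T × G → ℤ) (y : G → ℤ), ∀ g : G, ∑ x : G × T × G,
      c x * (((range (orderOf (x.2.1 : G))).filter
        (fun i => x.1 * (x.2.1 : G) ^ i * x.2.2 = g)).card : ℤ) =
          (if g = 1 then 1 else 0) + (p : ℤ) * y g) := by
  classical
  let v : G × T × G → (G →₀ ZMod p) := fun x =>
    ∑ i ∈ range (orderOf (x.2.1 : G)), Finsupp.single (x.1 * (x.2.1 : G) ^ i * x.2.2) 1
  let J : Submodule (ZMod p) (G →₀ ZMod p) := Submodule.span (ZMod p) (Set.range v)
  by_cases h1 : (Finsupp.single 1 1 : G →₀ ZMod p) ∈ J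
  · right
    obtain ⟨c, hc⟩ := (Submodule.mem_span_range_iff_exists_fun (ZMod p)).1 h1
    have key : ∀ g : G, ∃ y : ℤ, ∑ x : G × T × G,
        ((c x).val : ℤ) * (((range (orderOf (x.2.1 : G))).filter
          (fun i => x.1 * (x.2.1 : G) ^ i * x.2.2 = g)).card : ℤ) =
            (if g = 1 then 1 else 0) + (p : ℤ) * y := by
      intro g
      have h2 := congrArg (fun f : G →₀ ZMod p => f g) hc
      simp only [Finsupp.coe_finsetSum, Finset.sum_apply, Finsupp.smul_apply, smul_eq_mul] at h2
      have h3 : ∀ x : G × T × G, v x g = (((range (orderOf (x.2.1 : G))).filter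
          (fun i => x.1 * (x.2.1 : G) ^ i * x.2.2 = g)).card : ZMod p) := by
        intro x
        simp only [v]
        rw [Finsupp.finsetSum_apply, Finset.card_filter]
        push_cast
        refine Finset.sum_congr rfl fun i _ => ?_
        rw [Finsupp.single_apply]
      have h4 : ((∑ x : G × T × G, ((c x).val : ℤ) * (((range (orderOf (x.2.1 : G))).filter
          (fun i => x.1 * (x.2.1 : G) ^ i * x.2.2 = g)).card : ℤ) : ℤ) : ZMod p) =
          ((if g = 1 then 1 else 0 : ℤ) : ZMod p) := by
        push_cast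
        have h5 : ∀ x : G × T × G, ((c x).val : ZMod p) *
            (((range (orderOf (x.2.1 : G))).filter
              (fun i => x.1 * (x.2.1 : G) ^ i * x.2.2 = g)).card : ZMod p) = c x * v x g := by
          intro x
          rw [h3, ZMod.natCast_zmod_val]
        rw [Finset.sum_congr rfl fun x _ => h5 x, h2, Finsupp.single_apply]
        by_cases hg : g = 1
        · simp [hg]
        · simp [hg, Ne.symm hg]
      obtain ⟨y, hy⟩ := (ZMod.intCast_eq_intCast_iff_dvd_sub _ _ _).1 h4.symm
      exact ⟨y, by linarith⟩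
    choose y hy using key
    exact ⟨fun x => ((c x).val : ℤ), y, hy⟩
  · left
    have hv : ∀ (g : G) (x : G × T × G), lreg (ZMod p) G g (v x) = v (g * x.1, x.2.1, x.2.2) := by
      intro g x
      simp only [v]
      rw [map_sum]
      refine Finset.sum_congr rfl fun i _ => ?_
      rw [lreg_single]
      simp only [mul_assoc]
    have hJ : ∀ g, J ≤ J.comap (lreg (ZMod p) G g) := by
      intro g
      apply Submodule.span_le.2
      rintro _ ⟨x, rfl⟩
      show lreg (ZMod p) G g (v x) ∈ J
      rw [hv]
      exact Submodule.subset_span ⟨_, rfl⟩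
    refine ⟨(G →₀ ZMod p) ⧸ J, inferInstance, inferInstance, inferInstance,
      (lreg (ZMod p) G).quotient J hJ, ?_, ?_⟩
    · rw [Submodule.Quotient.nontrivial_iff]
      intro h
      exact h1 (h ▸ Submodule.mem_top)
    · intro h hTh w hw
      have hN : ∀ y : G →₀ ZMod p, ∑ i ∈ range (orderOf h), lreg (ZMod p) G (h ^ i) y ∈ J := by
        intro y
        induction y using Finsupp.induction_linear with
        | zero => simp
        | add a b ha hb =>
          simp only [map_add, Finset.sum_add_distrib]
          exact J.add_mem ha hb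
        | single b r =>
          have h2 : ∑ i ∈ range (orderOf h), lreg (ZMod p) G (h ^ i) (Finsupp.single b r) =
              r • v (1, ⟨h, hTh⟩, b) := by
            simp only [v]
            rw [Finset.smul_sum]
            refine Finset.sum_congr rfl fun i _ => ?_
            rw [lreg_single, one_mul, Finsupp.smul_single, smul_eq_mul, mul_one]
          rw [h2]
          exact J.smul_mem _ (Submodule.subset_span ⟨_, rfl⟩)
      obtain ⟨y, rfl⟩ := J.mkQ_surjective w
      have h3 : ∀ i : ℕ, (lreg (ZMod p) G).quotient J hJ (h ^ i) (J.mkQ y) = J.mkQ y := by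
        intro i
        induction i with
        | zero => simp
        | succ i ih => rw [pow_succ, map_mul, Module.End.mul_apply, hw, ih]
      have h4 : ∀ i : ℕ, (lreg (ZMod p) G).quotient J hJ (h ^ i) (J.mkQ y) =
          J.mkQ (lreg (ZMod p) G (h ^ i) y) := by
        intro i
        rfl
      have h5 : ∑ i ∈ range (orderOf h), J.mkQ (lreg (ZMod p) G (h ^ i) y) = 0 := by
        rw [← map_sum]
        exact (Submodule.Quotient.mk_eq_zero J).2 (hN y)
      rw [Finset.sum_congr rfl fun i _ => ((h4 i).symm.trans (h3 i)), Finset.sum_const,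
        Finset.card_range] at h5
      rw [← Nat.cast_smul_eq_nsmul (ZMod p)] at h5
      refine (smul_eq_zero.1 h5).resolve_left ?_
      intro h6
      rw [ZMod.natCast_eq_zero_iff] at h6
      exact hT h hTh h6

/-- The relation in a commutative group with an action. -/
theorem rel_apply {G : Type} [Group G] [Fintype G] [DecidableEq G] (T : Set G) [Fintype T]
    {A : Type} [CommGroup A] (act : G → (A →* A))
    (hmul : ∀ g h x, act (g * h) x = act g (act h x)) (c : G × T × G → ℤ) (x : A) :
    ∏ k : G × T × G, (act k.1 (∏ i ∈ range (orderOf (k.2.1 : G)), act ((k.2.1 : G) ^ i)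
      (act k.2.2 x))) ^ (c k) = ∏ g : G, (act g x) ^ (∑ k : G × T × G,
        c k * (((range (orderOf (k.2.1 : G))).filter
          (fun i => k.1 * (k.2.1 : G) ^ i * k.2.2 = g)).card : ℤ)) := by
  classical
  have h1 : ∀ k : G × T × G,
      act k.1 (∏ i ∈ range (orderOf (k.2.1 : G)), act ((k.2.1 : G) ^ i) (act k.2.2 x)) =
        ∏ g : G, (act g x) ^ (((range (orderOf (k.2.1 : G))).filter
            (fun i => k.1 * (k.2.1 : G) ^ i * k.2.2 = g)).card) := by
    intro k
    rw [map_prod]
    have h2 : ∀ i, act k.1 (act ((k.2.1 : G) ^ i) (act k.2.2 x)) =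
          act (k.1 * (k.2.1 : G) ^ i * k.2.2) x := by
      intro i
      rw [← hmul, ← hmul, mul_assoc]
    rw [Finset.prod_congr rfl fun i _ => h2 i]
    rw [← Finset.prod_fiberwise_of_maps_to (s := range (orderOf (k.2.1 : G)))
      (t := (Finset.univ : Finset G)) (g := fun i => k.1 * (k.2.1 : G) ^ i * k.2.2)
      (fun i _ => Finset.mem_univ _)]
    refine Finset.prod_congr rfl fun g _ => ?_
    rw [Finset.prod_congr rfl (g := fun _ => act g x), Finset.prod_const]
    intro i hi
    rw [(Finset.mem_filter.1 hi).2]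
  have h3 : ∀ k : G × T × G,
      (act k.1 (∏ i ∈ range (orderOf (k.2.1 : G)), act ((k.2.1 : G) ^ i) (act k.2.2 x))) ^ (c k) =
        ∏ g : G, (act g x) ^ (c k * (((range (orderOf (k.2.1 : G))).filter
            (fun i => k.1 * (k.2.1 : G) ^ i * k.2.2 = g)).card : ℤ)) := by
    intro k
    rw [h1, ← Finset.prod_zpow]
    refine Finset.prod_congr rfl fun g _ => ?_
    rw [← zpow_natCast, ← zpow_mul, mul_comm]
  rw [Finset.prod_congr rfl fun k _ => h3 k, Finset.prod_comm]
  refine Finset.prod_congr rfl fun g _ => ?_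
  have h4 : ∀ (s : Finset (G × T × G)) (f : G × T × G → ℤ),
      (act g x) ^ (∑ k ∈ s, f k) = ∏ k ∈ s, (act g x) ^ f k := by
    intro s f
    induction s using Finset.induction_on with
    | empty => simp
    | insert a s ha ih => rw [Finset.sum_insert ha, Finset.prod_insert ha, zpow_add, ih]
  exact (h4 _ _).symm

/-- A subgroup generating modulo `p`-th powers contains the `p`-part. -/
theorem val_le_of_gen (p : ℕ) [Fact p.Prime] {A : Type} [CommGroup A] [Finite A] (I : Subgroup A)
    (h : ∀ x : A, ∃ z : A, x * z ^ p ∈ I) :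
    padicValNat p (Nat.card A) = padicValNat p (Nat.card I) := by
  classical
  have h1 : ¬ p ∣ Nat.card (A ⧸ I) := by
    intro hp
    obtain ⟨q, hq⟩ := exists_prime_orderOf_dvd_card' p hp
    -- the p-power map is surjective
    have hsurj : Function.Surjective (fun x : A ⧸ I => x ^ p) := by
      intro y
      obtain ⟨x, rfl⟩ := QuotientGroup.mk_surjective y
      obtain ⟨z, hz⟩ := h x
      refine ⟨((z⁻¹ : A) : A ⧸ I), ?_⟩
      show ((z⁻¹ : A) : A ⧸ I) ^ p = (x : A ⧸ I)
      rw [← QuotientGroup.mk_pow, QuotientGroup.eq]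
      have h2 : (z⁻¹ ^ p)⁻¹ * x = x * z ^ p := by
        rw [inv_pow, inv_inv, mul_comm]
      rw [h2]
      exact hz
    have hinj := Finite.injective_iff_surjective.2 hsurj
    have h3 : q ^ p = 1 := by rw [← hq]; exact pow_orderOf_eq_one q
    have h4 : q = 1 := hinj (by show q ^ p = 1 ^ p; rw [h3, one_pow])
    rw [h4, orderOf_one] at hq
    exact (Fact.out : p.Prime).one_lt.ne hq
  rw [Subgroup.card_eq_card_quotient_mul_card_subgroup I, padicValNat.mul Nat.card_pos.ne'
    Nat.card_pos.ne', padicValNat.eq_zero_of_not_dvd h1, zero_add]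

end Pool.Agent.R493.MU
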