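import Pool.Agent.R493.MU.B

set_option autoImplicit false

namespace Pool.Agent.R493.MU

open Finset NumberField nonZeroDivisors

section

variable {N : Type} [Field N] [NumberField N]

/-- The norm of a class comes from the fixed field. -/
theorem norm_class (H : Subgroup (N ≃ₐ[ℚ] N)) [Fintype H] (x : ClassGroup (𝓞 N)) :
    ∃ y : ClassGroup (𝓞 (IntermediateField.fixedField H)),
      ClassGroup.extendedHom (𝓞 (IntermediateField.fixedField H)) (𝓞 N) y =
        ∏ h : H, ac (h : N ≃ₐ[ℚ] N) x := by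
  classical
  obtain ⟨I, rfl⟩ := ClassGroup.mk0_surjective x
  have hI : (I : Ideal (𝓞 N)) ≠ ⊥ := nonZeroDivisors.coe_ne_zero I
  refine ⟨ClassGroup.mk0 ⟨Ideal.relNorm (𝓞 (IntermediateField.fixedField H)) (I : Ideal (𝓞 N)), ?_⟩,
    ?_⟩
  · rw [mem_nonZeroDivisors_iff_ne_zero]
    intro h
    exact hI ((Ideal.relNorm_eq_bot_iff (R := 𝓞 (IntermediateField.fixedField H))).1 h)
  · rw [ClassGroup.extendedHom_mk0, Finset.prod_congr rfl fun h _ => ac_mk0 _ I, ← map_prod]
    congr 1
    apply Subtype.ext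
    rw [Submonoid.coe_finsetProd]
    exact map_relNorm H (I : Ideal (𝓞 N)) hI

theorem norm_class_range {G : Type} [Group G] [Finite G] (ι : G →* (N ≃ₐ[ℚ] N))
    (hι : Function.Injective ι) (h : G) (x : ClassGroup (𝓞 N)) :
    ∃ y : ClassGroup (𝓞 (IntermediateField.fixedField (Subgroup.zpowers (ι h)))),
      ClassGroup.extendedHom (𝓞 (IntermediateField.fixedField (Subgroup.zpowers (ι h)))) (𝓞 N) y =
        ∏ i ∈ range (orderOf h), ac (ι (h ^ i)) x := by
  classical
  obtain ⟨y, hy⟩ := norm_class (Subgroup.zpowers (ι h)) x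
  refine ⟨y, ?_⟩
  rw [hy, ← orderOf_injective ι hι h,
    ← Fin.prod_univ_eq_prod_range (fun i => ac (ι (h ^ i)) x) (orderOf (ι h))]
  refine (Fintype.prod_equiv (finEquivZPowers (isOfFinOrder_of_finite (ι h))) _ _
    (fun i => ?_)).symm
  rw [map_pow]
  rfl

/-- The class number inequality of a norm relation modulo `p`. -/
theorem class_ineq (p : ℕ) [Fact p.Prime] {G : Type} [Group G] [Fintype G] [DecidableEq G]
    (T : Set G) [Fintype T] (ι : G →* (N ≃ₐ[ℚ] N)) (hι : Function.Injective ι)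
    (c : G × T × G → ℤ) (y : G → ℤ) (hc : ∀ g : G, ∑ x : G × T × G,
      c x * (((range (orderOf (x.2.1 : G))).filter
        (fun i => x.1 * (x.2.1 : G) ^ i * x.2.2 = g)).card : ℤ) =
          (if g = 1 then 1 else 0) + (p : ℤ) * y g) :
    padicValNat p (Nat.card (ClassGroup (𝓞 N))) ≤ ∑ k : G × T × G,
      padicValNat p (Nat.card (ClassGroup
        (𝓞 (IntermediateField.fixedField (Subgroup.zpowers (ι (k.2.1 : G))))))) := by
  classical
  let B : G × T × G → Type := fun k =>
    ClassGroup (𝓞 (IntermediateField.fixedField (Subgroup.zpowers (ι (k.2.1 : G)))))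
  let Ψ : (∀ k, B k) →* ClassGroup (𝓞 N) := ∏ k : G × T × G,
    ((ac (ι k.1)).comp (ClassGroup.extendedHom
      (𝓞 (IntermediateField.fixedField (Subgroup.zpowers (ι (k.2.1 : G))))) (𝓞 N))).comp
        (Pi.evalMonoidHom B k)
  have hΨ : ∀ b : (∀ k, B k), Ψ b = ∏ k : G × T × G, ac (ι k.1) (ClassGroup.extendedHom
      (𝓞 (IntermediateField.fixedField (Subgroup.zpowers (ι (k.2.1 : G))))) (𝓞 N) (b k)) := by
    intro b
    simp only [Ψ]
    rw [MonoidHom.finsetProd_apply]
    rfl
  have h1 : ∀ x : ClassGroup (𝓞 N), ∃ z, x * z ^ p ∈ Ψ.range := by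
    intro x
    refine ⟨∏ g : G, (ac (ι g) x) ^ y g, ?_⟩
    have h2 := rel_apply T (fun g => ac (ι g)) (fun g h x => by rw [map_mul, ac_mul]) c x
    rw [Finset.prod_congr rfl fun g _ => congrArg _ (hc g)] at h2
    have h3 : ∏ g : G, (ac (ι g) x) ^ ((if g = 1 then 1 else 0) + (p : ℤ) * y g) =
        x * (∏ g : G, (ac (ι g) x) ^ y g) ^ p := by
      rw [← Finset.prod_pow]
      have h4 : ∀ g : G, (ac (ι g) x) ^ ((if g = 1 then 1 else 0) + (p : ℤ) * y g) =
          (if g = 1 then x else 1) * ((ac (ι g) x) ^ y g) ^ p := by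
        intro g
        rw [zpow_add, mul_comm (p : ℤ), zpow_mul _ (y g) (p : ℤ), zpow_natCast]
        by_cases hg : g = 1
        · simp [hg, ac_one]
        · simp [hg]
      rw [Finset.prod_congr rfl fun g _ => h4 g, Finset.prod_mul_distrib]
      congr 1
      simp
    rw [← h3, ← h2]
    choose b hb using fun k : G × T × G => norm_class_range ι hι (k.2.1 : G) (ac (ι k.2.2) x)
    refine ⟨fun k => (b k) ^ (c k), ?_⟩
    rw [hΨ]
    refine Finset.prod_congr rfl fun k _ => ?_
    rw [map_zpow, map_zpow, hb]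
  rw [val_le_of_gen p Ψ.range h1]
  have h5 : Nat.card Ψ.range ∣ Nat.card (∀ k, B k) := Subgroup.card_range_dvd Ψ
  have h6 : Nat.card (∀ k, B k) = ∏ k, Nat.card (B k) := Nat.card_pi
  have h7 : ∀ k, Nat.card (B k) ≠ 0 := fun k => Nat.card_pos.ne'
  have h8 : ∏ k, Nat.card (B k) ≠ 0 := Finset.prod_ne_zero_iff.2 fun k _ => h7 k
  rw [h6] at h5
  have h9 : padicValNat p (Nat.card Ψ.range) ≤ padicValNat p (∏ k, Nat.card (B k)) :=
    (padicValNat_dvd_iff_le h8).1 (pow_padicValNat_dvd.trans h5)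
  refine h9.trans (le_of_eq ?_)
  have h10 : ∀ s : Finset (G × T × G), padicValNat p (∏ k ∈ s, Nat.card (B k)) =
      ∑ k ∈ s, padicValNat p (Nat.card (B k)) := by
    intro s
    induction s using Finset.induction_on with
    | empty => simp
    | insert a s ha ih =>
      rw [Finset.prod_insert ha, Finset.sum_insert ha, padicValNat.mul (h7 a)
        (Finset.prod_ne_zero_iff.2 fun k _ => h7 k), ih]
  exact h10 _

end

end Pool.Agent.R493.MU
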