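import Pool.Agent.R493.MU.C

set_option autoImplicit false

namespace Pool.Agent.R493.MU

open Finset NumberField IntermediateField

/-- The algebraic closure of `ℚ`. -/
abbrev Om : Type := AlgebraicClosure ℚ

instance instAlgOm : Algebra.IsAlgebraic ℚ Om := by
  have h := AlgebraicClosure.isAlgebraic ℚ
  convert h
  · rfl
  · exact Subsingleton.elim _ _

instance instNormalOm : Normal ℚ Om :=
  normal_iff.2 fun x => ⟨Algebra.IsIntegral.isIntegral x, IsAlgClosed.splits _⟩

/-- Subfields of cyclotomic fields are abelian. -/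
theorem layer_abelian (n : ℕ) (hn : n ≠ 0) (E : IntermediateField ℚ Om)
    (hE : E ≤ IntermediateField.adjoin ℚ {z : Om | z ^ n = 1}) : IsAbelianGalois ℚ E := by
  have : NeZero n := ⟨hn⟩
  have : NeZero (n : Om) := ⟨by exact_mod_cast hn⟩
  obtain ⟨ζ, hζ⟩ := HasEnoughRootsOfUnity.exists_primitiveRoot Om n
  have hcyc := hζ.intermediateField_adjoin_isCyclotomicExtension ℚ
  have hab := @IsCyclotomicExtension.isAbelianGalois {n} ℚ (IntermediateField.adjoin ℚ {ζ})
    _ _ _ hcyc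
  have hle : E ≤ IntermediateField.adjoin ℚ {ζ} := by
    refine hE.trans ?_
    rw [IntermediateField.adjoin_le_iff]
    intro z hz
    obtain ⟨i, -, rfl⟩ := hζ.eq_pow_of_pow_eq_one hz
    exact pow_mem (IntermediateField.mem_adjoin_simple_self ℚ ζ) i
  have h1 := @IsAbelianGalois.of_algHom _ _ _ _ _ _ _ _ (IntermediateField.inclusion hle) hab
  convert h1
  exact Subsingleton.elim _ _

/-- Lifts of automorphisms of order prime to `p` which are trivial on `E`. -/
theorem exists_lift (F E : IntermediateField ℚ Om) [FiniteDimensional ℚ E] [IsGalois ℚ E]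
    (g : F ≃ₐ[ℚ] F) (hg : Nat.Coprime (orderOf g) (Module.finrank ℚ E)) :
    ∃ τ : Om ≃ₐ[ℚ] Om, (∀ x : F, τ x = g x) ∧ ∀ x : E, τ x = x := by
  classical
  obtain ⟨n, hn1, hn2⟩ := Nat.chineseRemainder hg 1 0
  let σ : Om ≃ₐ[ℚ] Om := g.liftNormal Om
  have hσ : ∀ x : F, σ x = g x := fun x => g.liftNormal_commutes Om x
  have hσn : ∀ (k : ℕ) (x : F), (σ ^ k) x = (g ^ k) x := by
    intro k
    induction k with
    | zero => intro x; simp
    | succ k ih =>
      intro x
      rw [pow_succ, pow_succ, AlgEquiv.mul_apply, AlgEquiv.mul_apply, hσ, ih]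
  refine ⟨σ ^ n, fun x => ?_, fun x => ?_⟩
  · rw [hσn]
    have h1 : g ^ n = g ^ 1 := (pow_inj_mod.2 hn1)
    rw [h1, pow_one]
  · have h1 : AlgEquiv.restrictNormalHom E (σ ^ n) = 1 := by
      rw [map_pow]
      have h2 : Module.finrank ℚ E ∣ n := (Nat.modEq_zero_iff_dvd.1 hn2)
      obtain ⟨k, rfl⟩ := h2
      rw [pow_mul, ← IsGalois.card_aut_eq_finrank, pow_card_eq_one', one_pow]
    have h3 : (algebraMap E Om) (AlgEquiv.restrictNormalHom E (σ ^ n) x) = (σ ^ n) (algebraMap E Om x) :=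
      AlgEquiv.restrictNormal_commutes (σ ^ n) E x
    rw [h1] at h3
    exact h3.symm

/-- Automorphisms agreeing on `F` and `E` agree on `F ⊔ E`. -/
theorem agree (F E : IntermediateField ℚ Om) (τ τ' : Om ≃ₐ[ℚ] Om) (hF : ∀ x ∈ F, τ x = τ' x)
    (hE : ∀ x ∈ E, τ x = τ' x) : ∀ x ∈ F ⊔ E, τ x = τ' x := by
  have h1 : F ⊔ E ≤ IntermediateField.fixedField (Subgroup.zpowers (τ'⁻¹ * τ)) := by
    have key : ∀ K : IntermediateField ℚ Om, (∀ x ∈ K, τ x = τ' x) →
        K ≤ IntermediateField.fixedField (Subgroup.zpowers (τ'⁻¹ * τ)) := by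
      intro K hK x hx
      rw [IntermediateField.mem_fixedField_iff]
      intro f hf
      have h3 : Subgroup.zpowers (τ'⁻¹ * τ) ≤ MulAction.stabilizer (Om ≃ₐ[ℚ] Om) x := by
        rw [Subgroup.zpowers_le]
        show τ'⁻¹ (τ x) = x
        rw [hK x hx]
        exact τ'.symm_apply_apply x
      exact h3 hf
    exact sup_le (key F hF) (key E hE)
  intro x hx
  have h2 := (IntermediateField.mem_fixedField_iff _ _).1 (h1 hx) _ (Subgroup.mem_zpowers _)
  have h3 : τ'⁻¹ (τ x) = x := h2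
  have h4 := congrArg τ' h3
  have h5 : τ' (τ'⁻¹ (τ x)) = τ x := τ'.apply_symm_apply (τ x)
  rw [h5] at h4
  exact h4

/-- Restriction to a stable subfield. -/
theorem exists_res (N : IntermediateField ℚ Om) (τ : Om ≃ₐ[ℚ] Om)
    (h : N.map (τ : Om →ₐ[ℚ] Om) = N) :
    ∃ ρ : N ≃ₐ[ℚ] N, ∀ x : N, ((ρ x : N) : Om) = τ x :=
  ⟨(IntermediateField.intermediateFieldMap τ N).trans (IntermediateField.equivOfEq h),
    fun x => rfl⟩

/-- The action on the compositum. -/
theorem exists_action (F E : IntermediateField ℚ Om) [FiniteDimensional ℚ E] [IsGalois ℚ E]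
    (G : Subgroup (F ≃ₐ[ℚ] F)) [Finite G] (hG : Nat.Coprime (Nat.card G) (Module.finrank ℚ E)) :
    ∃ ι : G →* (↥(F ⊔ E) ≃ₐ[ℚ] ↥(F ⊔ E)), Function.Injective ι ∧ ∀ g : G, ∃ τ : Om ≃ₐ[ℚ] Om,
      (∀ x : F, τ x = (g : F ≃ₐ[ℚ] F) x) ∧ (∀ x : E, τ x = x) ∧
        ∀ x : ↥(F ⊔ E), ((ι g x : ↥(F ⊔ E)) : Om) = τ x := by
  classical
  have h1 : ∀ g : G, ∃ τ : Om ≃ₐ[ℚ] Om, (∀ x : F, τ x = (g : F ≃ₐ[ℚ] F) x) ∧
      ∀ x : E, τ x = x := by
    intro g
    apply exists_lift
    apply Nat.Coprime.coprime_dvd_left _ hG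
    rw [Subgroup.orderOf_coe]
    exact orderOf_dvd_natCard g
  choose τ hτF hτE using h1
  have hstab : ∀ g : G, (F ⊔ E).map (τ g : Om →ₐ[ℚ] Om) = F ⊔ E := by
    intro g
    rw [IntermediateField.map_sup]
    congr 1
    · apply le_antisymm
      · rintro _ ⟨x, hx, rfl⟩
        show τ g x ∈ F
        rw [hτF g ⟨x, hx⟩]
        exact ((g : F ≃ₐ[ℚ] F) ⟨x, hx⟩).2
      · intro x hx
        refine ⟨((g : F ≃ₐ[ℚ] F).symm ⟨x, hx⟩ : F), ((g : F ≃ₐ[ℚ] F).symm ⟨x, hx⟩).2, ?_⟩
        show τ g (((g : F ≃ₐ[ℚ] F).symm ⟨x, hx⟩ : F) : Om) = x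
        rw [hτF g, AlgEquiv.apply_symm_apply]
    · apply le_antisymm
      · rintro _ ⟨x, hx, rfl⟩
        show τ g x ∈ E
        rw [hτE g ⟨x, hx⟩]
        exact hx
      · intro x hx
        exact ⟨x, hx, hτE g ⟨x, hx⟩⟩
  choose ρ hρ using fun g : G => exists_res (F ⊔ E) (τ g) (hstab g)
  have hone : ρ 1 = 1 := by
    apply AlgEquiv.ext
    intro x
    apply Subtype.ext
    rw [hρ]
    refine agree F E (τ 1) 1 (fun y hy => ?_) (fun y hy => ?_) x x.2
    · rw [hτF 1 ⟨y, hy⟩]; rfl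
    · rw [hτE 1 ⟨y, hy⟩]; rfl
  have hmul : ∀ g h : G, ρ (g * h) = ρ g * ρ h := by
    intro g h
    apply AlgEquiv.ext
    intro x
    apply Subtype.ext
    rw [hρ, AlgEquiv.mul_apply, hρ, hρ]
    refine agree F E (τ (g * h)) (τ g * τ h) (fun y hy => ?_) (fun y hy => ?_) x x.2
    · rw [hτF (g * h) ⟨y, hy⟩, AlgEquiv.mul_apply, hτF h ⟨y, hy⟩, hτF g]
      rfl
    · rw [hτE (g * h) ⟨y, hy⟩, AlgEquiv.mul_apply, hτE h ⟨y, hy⟩, hτE g ⟨y, hy⟩]
  refine ⟨{ toFun := ρ, map_one' := hone, map_mul' := hmul }, ?_, fun g =>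
    ⟨τ g, hτF g, hτE g, hρ g⟩⟩
  rw [injective_iff_map_eq_one]
  intro g hg
  have hg' : ρ g = 1 := hg
  apply Subtype.ext
  apply AlgEquiv.ext
  intro x
  apply Subtype.ext
  have h2 := hρ g ⟨x, (le_sup_left : F ≤ F ⊔ E) x.2⟩
  rw [hg'] at h2
  have h3 : ((x : F) : Om) = τ g x := h2
  rw [hτF] at h3
  exact h3.symm

/-- The fixed field in the compositum. -/
theorem fixed_eq (F E : IntermediateField ℚ Om) [FiniteDimensional ℚ E]
    (h : F ≃ₐ[ℚ] F) (hh : IsOfFinOrder h) (η : ↥(F ⊔ E) ≃ₐ[ℚ] ↥(F ⊔ E))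
    (τ : Om ≃ₐ[ℚ] Om) (hF : ∀ x : F, τ x = h x) (hE : ∀ x : E, τ x = x)
    (hη : ∀ x : ↥(F ⊔ E), ((η x : ↥(F ⊔ E)) : Om) = τ x) :
    IntermediateField.lift (IntermediateField.fixedField (Subgroup.zpowers η)) =
      IntermediateField.lift (IntermediateField.fixedField (Subgroup.zpowers h)) ⊔ E := by
  classical
  have hfix : ∀ (K : Type) [Field K] [Algebra ℚ K] (f : K ≃ₐ[ℚ] K) (x : K),
      x ∈ IntermediateField.fixedField (Subgroup.zpowers f) ↔ f x = x := by
    intro K _ _ f x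
    rw [IntermediateField.mem_fixedField_iff]
    constructor
    · intro h1
      exact h1 f (Subgroup.mem_zpowers f)
    · intro h1 g hg
      have h3 : Subgroup.zpowers f ≤ MulAction.stabilizer (K ≃ₐ[ℚ] K) x := by
        rw [Subgroup.zpowers_le]
        exact h1
      exact h3 hg
  apply le_antisymm
  · rintro _ ⟨x, hx, rfl⟩
    have hx1 : η x = x := (hfix _ η x).1 hx
    have hx2 : τ (x : Om) = x := by rw [← hη, hx1]
    -- averaging
    have hτn : ∀ (k : ℕ) (y : F), (τ ^ k) y = (h ^ k) y := by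
      intro k
      induction k with
      | zero => intro y; simp
      | succ k ih =>
        intro y
        rw [pow_succ, pow_succ, AlgEquiv.mul_apply, AlgEquiv.mul_apply, hF, ih]
    have hτE : ∀ (k : ℕ) (y : E), (τ ^ k) y = y := by
      intro k
      induction k with
      | zero => intro y; simp
      | succ k ih =>
        intro y
        rw [pow_succ, AlgEquiv.mul_apply, hE, ih]
    have hτx : ∀ k : ℕ, (τ ^ k) (x : Om) = x := by
      intro k
      induction k with
      | zero => simp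
      | succ k ih =>
        rw [pow_succ, AlgEquiv.mul_apply, hx2, ih]
    have hT : ∀ y ∈ F ⊔ E, ∑ k ∈ range (orderOf h), (τ ^ k) y ∈
        IntermediateField.lift (IntermediateField.fixedField (Subgroup.zpowers h)) ⊔ E := by
      intro y hy
      have hy1 : y ∈ (F ⊔ E).toSubalgebra := hy
      rw [IntermediateField.sup_toSubalgebra_of_right, ← Subalgebra.mem_toSubmodule,
        ← Subalgebra.mul_toSubmodule] at hy1
      refine Submodule.mul_induction_on hy1 ?_ ?_
      · intro a ha b hb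
        have ha' : a ∈ F := ha
        have hb' : b ∈ E := hb
        have h4 : ∑ k ∈ range (orderOf h), (τ ^ k) (a * b) =
            ((∑ k ∈ range (orderOf h), (h ^ k) ⟨a, ha'⟩ : F) : Om) * b := by
          rw [AddSubmonoidClass.coe_finsetSum, Finset.sum_mul]
          refine Finset.sum_congr rfl fun k _ => ?_
          rw [map_mul, hτE k ⟨b, hb'⟩, hτn k ⟨a, ha'⟩]
        rw [h4]
        apply mul_mem
        · apply (le_sup_left : IntermediateField.lift (IntermediateField.fixedField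
            (Subgroup.zpowers h)) ≤ _)
          rw [IntermediateField.mem_lift, hfix]
          have h5 : ∀ k : ℕ, h ((h ^ k) (⟨a, ha'⟩ : F)) = (h ^ (k + 1)) ⟨a, ha'⟩ := by
            intro k
            rw [pow_succ', AlgEquiv.mul_apply]
          refine (map_sum h _ _).trans ?_
          refine (Finset.sum_congr rfl fun k _ => h5 k).trans ?_
          have h6 := Finset.sum_range_succ (fun k => (h ^ k) (⟨a, ha'⟩ : F)) (orderOf h)
          rw [Finset.sum_range_succ'] at h6
          have h7 : (h ^ orderOf h) (⟨a, ha'⟩ : F) = (h ^ 0) (⟨a, ha'⟩ : F) := by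
            rw [pow_orderOf_eq_one, pow_zero]
          rw [h7] at h6
          exact add_right_cancel h6
        · exact (le_sup_right : E ≤ _) hb'
      · intro a b ha hb
        simp only [map_add, Finset.sum_add_distrib]
        exact add_mem ha hb
    have h8 := hT x x.2
    rw [Finset.sum_congr rfl fun k _ => hτx k, Finset.sum_const, Finset.card_range] at h8
    have h9 : orderOf h ≠ 0 := (orderOf_pos_iff.2 hh).ne'
    have h10 : ((orderOf h : ℕ) : Om) ≠ 0 := by exact_mod_cast h9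
    have h11 : (x : Om) = ((orderOf h : ℕ) : Om)⁻¹ * ((orderOf h) • (x : Om)) := by
      rw [nsmul_eq_mul, inv_mul_cancel_left₀ h10]
    show (x : Om) ∈ _
    rw [h11]
    exact mul_mem (inv_mem (_root_.natCast_mem _ _)) h8
  · apply sup_le
    · rintro _ ⟨x, hx, rfl⟩
      have hx1 : h x = x := (hfix _ h x).1 hx
      have hxN : (x : Om) ∈ F ⊔ E := (le_sup_left : F ≤ F ⊔ E) x.2
      show (x : Om) ∈ _
      have h2 : (⟨(x : Om), hxN⟩ : ↥(F ⊔ E)).1 ∈ IntermediateField.lift
          (IntermediateField.fixedField (Subgroup.zpowers η)) := by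
        rw [IntermediateField.mem_lift, hfix]
        apply Subtype.ext
        refine (hη ⟨(x : Om), hxN⟩).trans ?_
        show τ (x : Om) = x
        rw [hF, hx1]
      exact h2
    · intro x hx
      have hxN : (x : Om) ∈ F ⊔ E := (le_sup_right : E ≤ F ⊔ E) hx
      have h2 : (⟨(x : Om), hxN⟩ : ↥(F ⊔ E)).1 ∈ IntermediateField.lift
          (IntermediateField.fixedField (Subgroup.zpowers η)) := by
        rw [IntermediateField.mem_lift, hfix]
        apply Subtype.ext
        refine (hη ⟨(x : Om), hxN⟩).trans ?_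
        exact hE ⟨x, hx⟩
      exact h2

end Pool.Agent.R493.MU
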