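import Mathlib

set_option autoImplicit false

namespace Pool.Agent.R493.MU

open Finset

theorem pq_cyclic_aux {k : Type} [Field k] {P : Type} [Group P] [Finite P] (l q : ℕ)
    (hl : l.Prime) (hq : q.Prime) (hlq : l ≤ q) (hcard : Nat.card P = l * q) (hqk : (q : k) ≠ 0)
    {W : Type} [AddCommGroup W] [Module k W] [Nontrivial W] (ρ : Representation k P W)
    (hρ : ∀ g : P, g ≠ 1 → ∀ w, ρ g w = w → w = 0) : IsCyclic P := by
  classical
  by_contra hcyc
  have : Fintype P := Fintype.ofFinite P
  have hord : ∀ g : P, g ≠ 1 → orderOf g = l ∨ orderOf g = q := by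
    intro g hg1
    have h1 : orderOf g ∣ l * q := by
      rw [← hcard]
      exact orderOf_dvd_natCard _
    have h2 : orderOf g ≠ 1 := by rwa [Ne, orderOf_eq_one_iff]
    have h3 : orderOf g ≠ l * q := by
      intro h3
      apply hcyc
      apply isCyclic_of_orderOf_eq_card g
      rw [h3, hcard]
    rcases (Nat.dvd_mul.1 h1) with ⟨a, b, ha, hb, hab⟩
    rcases (Nat.dvd_prime hl).1 ha with rfl | rfl
    · rcases (Nat.dvd_prime hq).1 hb with rfl | rfl
      · exact absurd hab.symm (by simpa using h2)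
      · right; rw [← hab, one_mul]
    · rcases (Nat.dvd_prime hq).1 hb with rfl | rfl
      · left; rw [← hab, mul_one]
      · exact absurd hab.symm h3
  have hordp : ∀ g : P, g ≠ 1 → (orderOf g).Prime := by
    intro g hg
    rcases hord g hg with h | h
    · rw [h]; exact hl
    · rw [h]; exact hq
  have hzp : ∀ g h : P, g ≠ 1 → h ≠ 1 → g ∈ Subgroup.zpowers h →
      Subgroup.zpowers g = Subgroup.zpowers h := by
    intro g h hg1 hh1 hgh
    have h1 : Subgroup.zpowers g ≤ Subgroup.zpowers h := Subgroup.zpowers_le.2 hgh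
    have h2 : Nat.card (Subgroup.zpowers g) ∣ Nat.card (Subgroup.zpowers h) :=
      Subgroup.card_dvd_of_le h1
    rw [Nat.card_zpowers, Nat.card_zpowers] at h2
    have h3 := ((Nat.prime_dvd_prime_iff_eq (hordp g hg1) (hordp h hh1)).1 h2)
    apply Subgroup.eq_of_le_of_card_ge h1
    rw [Nat.card_zpowers, Nat.card_zpowers, h3]
  let Z : Finset (Subgroup P) := (univ.filter (fun g : P => g ≠ 1)).image Subgroup.zpowers
  have hZ : ∀ C ∈ Z, ∃ g : P, g ≠ 1 ∧ Subgroup.zpowers g = C := by
    intro C hC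
    obtain ⟨g, hg, rfl⟩ := Finset.mem_image.1 hC
    exact ⟨g, (Finset.mem_filter.1 hg).2, rfl⟩
  have hdec : ∀ {M : Type} [AddCommMonoid M] (f : P → M),
      ∑ g ∈ univ.filter (fun g : P => g ≠ 1), f g =
        ∑ C ∈ Z, ∑ g ∈ univ.filter (fun g : P => g ∈ C ∧ g ≠ 1), f g := by
    intro M _ f
    rw [← Finset.sum_fiberwise_of_maps_to (s := univ.filter (fun g : P => g ≠ 1)) (t := Z)
      (g := Subgroup.zpowers) (fun g hg => Finset.mem_image_of_mem _ hg)]
    refine Finset.sum_congr rfl fun C hC => ?_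
    refine Finset.sum_congr ?_ fun _ _ => rfl
    obtain ⟨h, hh, rfl⟩ := hZ C hC
    ext g
    simp only [Finset.mem_filter, Finset.mem_univ, true_and]
    constructor
    · rintro ⟨h1, h2⟩
      exact ⟨h2 ▸ Subgroup.mem_zpowers g, h1⟩
    · rintro ⟨h1, h2⟩
      exact ⟨h2, hzp g h h2 hh h1⟩
  have hins : ∀ {M : Type} [AddCommMonoid M] (C : Subgroup P) (f : P → M),
      ∑ g ∈ univ.filter (fun g : P => g ∈ C), f g =
        f 1 + ∑ g ∈ univ.filter (fun g : P => g ∈ C ∧ g ≠ 1), f g := by
    intro M _ C f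
    have h1 : univ.filter (fun g : P => g ∈ C) =
        insert 1 (univ.filter (fun g : P => g ∈ C ∧ g ≠ 1)) := by
      ext g
      simp only [Finset.mem_filter, Finset.mem_univ, true_and, Finset.mem_insert]
      constructor
      · intro h
        by_cases hg : g = 1
        · exact Or.inl hg
        · exact Or.inr ⟨h, hg⟩
      · rintro (rfl | h)
        · exact C.one_mem
        · exact h.1
    rw [h1, Finset.sum_insert (by simp)]
  have hcardC : ∀ C : Subgroup P, Nat.card C =
      1 + ∑ g ∈ univ.filter (fun g : P => g ∈ C ∧ g ≠ 1), 1 := by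
    intro C
    rw [← hins C (fun _ => 1), Finset.sum_const, smul_eq_mul, mul_one, Nat.card_eq_fintype_card,
      Fintype.card_subtype]
  -- the number of subgroups
  obtain ⟨x, hx⟩ : ∃ x : P, orderOf x = q := by
    have : Fact q.Prime := ⟨hq⟩
    exact exists_prime_orderOf_dvd_card' q (by rw [hcard]; exact dvd_mul_left q l)
  have hx1 : x ≠ 1 := by
    rintro rfl
    rw [orderOf_one] at hx
    exact hq.one_lt.ne hx
  have hxZ : Subgroup.zpowers x ∈ Z :=
    Finset.mem_image_of_mem _ (Finset.mem_filter.2 ⟨Finset.mem_univ _, hx1⟩)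
  have hother : ∀ C ∈ Z, C ≠ Subgroup.zpowers x → Nat.card C = l := by
    intro C hC hne
    obtain ⟨g, hg, rfl⟩ := hZ C hC
    rw [Nat.card_zpowers]
    rcases hord g hg with h | h
    · exact h
    · -- two subgroups of order `q`
      have hinj : Function.Injective (fun a : Subgroup.zpowers g × Subgroup.zpowers x =>
          ((a.1 : P) * (a.2 : P))) := by
        rintro ⟨a, b⟩ ⟨a', b'⟩ hab
        have hab' : (a : P) * b = a' * b' := hab
        have h4 : (a' : P)⁻¹ * a = b' * (b : P)⁻¹ := by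
          rw [inv_mul_eq_iff_eq_mul, ← mul_assoc, ← hab', mul_inv_cancel_right]
        have h5 : (a' : P)⁻¹ * a = 1 := by
          by_contra h6
          have h7 : (a' : P)⁻¹ * a ∈ Subgroup.zpowers g :=
            mul_mem (inv_mem a'.2) a.2
          have h8 : (a' : P)⁻¹ * a ∈ Subgroup.zpowers x := by
            rw [h4]
            exact mul_mem b'.2 (inv_mem b.2)
          exact hne ((hzp _ g h6 hg h7).symm.trans (hzp _ x h6 hx1 h8))
        have h6 : (a : P) = a' := by
          rw [inv_mul_eq_one] at h5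
          exact h5.symm
        have h7 : (b : P) = b' := by
          rw [h6] at hab'
          exact mul_left_cancel hab'
        exact Prod.ext (Subtype.ext h6) (Subtype.ext h7)
      have h4 := Nat.card_le_card_of_injective _ hinj
      rw [Nat.card_prod, Nat.card_zpowers, Nat.card_zpowers, h, hx, hcard] at h4
      have h5 : q ≤ l := Nat.le_of_mul_le_mul_right h4 hq.pos
      rw [h]
      omega
  have hcount : l * q = 1 + ∑ C ∈ Z, ∑ g ∈ univ.filter (fun g : P => g ∈ C ∧ g ≠ 1), 1 := by
    rw [← hdec (fun _ => 1)]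
    have h1 := hcardC ⊤
    rw [Subgroup.card_top, hcard] at h1
    rw [h1]
    congr 2
    ext g
    simp
  have hcount2 : ∑ C ∈ Z, ∑ g ∈ univ.filter (fun g : P => g ∈ C ∧ g ≠ 1), 1 =
      (q - 1) + (Z.card - 1) * (l - 1) := by
    rw [← Finset.add_sum_erase _ _ hxZ]
    have h1 : ∑ g ∈ univ.filter (fun g : P => g ∈ Subgroup.zpowers x ∧ g ≠ 1), 1 = q - 1 := by
      have h2 := hcardC (Subgroup.zpowers x)
      rw [Nat.card_zpowers, hx] at h2
      omega
    rw [h1]
    congr 1
    have h2 : ∀ C ∈ Z.erase (Subgroup.zpowers x),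
        ∑ g ∈ univ.filter (fun g : P => g ∈ C ∧ g ≠ 1), 1 = l - 1 := by
      intro C hC
      have h3 := hcardC C
      rw [hother C (Finset.mem_of_mem_erase hC) (Finset.ne_of_mem_erase hC)] at h3
      omega
    rw [Finset.sum_congr rfl h2, Finset.sum_const, smul_eq_mul, Finset.card_erase_of_mem hxZ]
  have hZcard : Z.card = q + 1 := by
    have h1 : 0 < Z.card := Finset.card_pos.2 ⟨_, hxZ⟩
    have h2 : (Z.card - 1) * (l - 1) = q * (l - 1) := by
      have h3 : q * (l - 1) = l * q - q := by
        rw [Nat.mul_sub, mul_one, mul_comm]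
      have h4 : q ≤ l * q := Nat.le_mul_of_pos_left q hl.pos
      have h5 := hq.pos
      rw [hcount2] at hcount
      omega
    have h3 : 0 < l - 1 := by have := hl.one_lt; omega
    have h4 := Nat.eq_of_mul_eq_mul_right h3 h2
    omega
  -- the norms vanish
  have hN : ∀ (C : Subgroup P) (w : W), (∃ g ∈ C, g ≠ 1) →
      ∑ g ∈ univ.filter (fun g : P => g ∈ C), ρ g w = 0 := by
    intro C w hC
    obtain ⟨g, hg, hg1⟩ := hC
    apply hρ g hg1
    rw [map_sum]
    refine Finset.sum_bij (fun h _ => g * h) ?_ ?_ ?_ ?_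
    · intro h hh
      rw [Finset.mem_filter] at hh ⊢
      exact ⟨Finset.mem_univ _, mul_mem hg hh.2⟩
    · intro a _ b _ hab
      exact mul_left_cancel hab
    · intro b hb
      rw [Finset.mem_filter] at hb
      refine ⟨g⁻¹ * b, ?_, by simp⟩
      rw [Finset.mem_filter]
      exact ⟨Finset.mem_univ _, mul_mem (inv_mem hg) hb.2⟩
    · intro h _
      rw [map_mul, Module.End.mul_apply]
  obtain ⟨w, hw⟩ := exists_ne (0 : W)
  apply hw
  have h1 := hN ⊤ w ⟨x, Subgroup.mem_top x, hx1⟩
  rw [hins ⊤ (fun g => ρ g w)] at h1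
  have h2 : univ.filter (fun g : P => g ∈ (⊤ : Subgroup P) ∧ g ≠ 1) =
      univ.filter (fun g : P => g ≠ 1) := by
    ext g
    simp
  rw [h2, hdec (fun g => ρ g w)] at h1
  have h3 : ∀ C ∈ Z, ∑ g ∈ univ.filter (fun g : P => g ∈ C ∧ g ≠ 1), ρ g w = -w := by
    intro C hC
    obtain ⟨g, hg, rfl⟩ := hZ C hC
    have h4 := hN (Subgroup.zpowers g) w ⟨g, Subgroup.mem_zpowers g, hg⟩
    rw [hins (Subgroup.zpowers g) (fun g => ρ g w), map_one, Module.End.one_apply] at h4
    exact (neg_eq_of_add_eq_zero_right h4).symm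
  rw [Finset.sum_congr rfl h3, Finset.sum_const, hZcard, map_one, Module.End.one_apply] at h1
  have h4 : (q : k) • w = 0 := by
    rw [Nat.cast_smul_eq_nsmul]
    rw [smul_neg, succ_nsmul] at h1
    have h5 : w + -(q • w + w) = -(q • w) := by abel
    rw [h5, neg_eq_zero] at h1
    exact h1
  exact (smul_eq_zero.1 h4).resolve_left hqk

/-- A group of order `l q` with a representation without fixed points, in a characteristic not
dividing the order, is cyclic. -/
theorem pq_cyclic {k : Type} [Field k] {P : Type} [Group P] [Finite P] (l q : ℕ)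
    (hl : l.Prime) (hq : q.Prime) (hcard : Nat.card P = l * q) (hlk : (l : k) ≠ 0)
    (hqk : (q : k) ≠ 0) {W : Type} [AddCommGroup W] [Module k W] [Nontrivial W]
    (ρ : Representation k P W) (hρ : ∀ g : P, g ≠ 1 → ∀ w, ρ g w = w → w = 0) : IsCyclic P := by
  rcases le_total l q with h | h
  · exact pq_cyclic_aux l q hl hq h hcard hqk ρ hρ
  · exact pq_cyclic_aux q l hq hl h (by rw [hcard, mul_comm]) hlk ρ hρ

end Pool.Agent.R493.MU
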