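import Pool.Agent.R493.MU.E
import Pool.Agent.R493.MU.P

set_option autoImplicit false

namespace Pool.Agent.R493.MU

open Finset NumberField

/-- A subgroup of order `l q` of a group with a representation without fixed points modulo `p` is
cyclic. -/
theorem cyclic_sub (p : ℕ) [Fact p.Prime] {A : Type} [Group A] (G : Subgroup A) [Finite G]
    (hp : ¬ p ∣ Nat.card G)
    (h : ∃ (W : Type) (_ : AddCommGroup W) (_ : Module (ZMod p) W)
      (_ : FiniteDimensional (ZMod p) W) (ρ : Representation (ZMod p) G W), Nontrivial W ∧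
        ∀ g : G, g ≠ 1 → ∀ w, ρ g w = w → w = 0)
    (P : Subgroup A) (hP : P ≤ G) (l q : ℕ) (hl : l.Prime) (hq : q.Prime)
    (hcard : Nat.card P = l * q) : IsCyclic P := by
  obtain ⟨W, i1, i2, i3, ρ, hW, hρ⟩ := h
  have hfin : Finite P := Nat.finite_of_card_ne_zero (by
    rw [hcard]; exact mul_ne_zero hl.ne_zero hq.ne_zero)
  have hdvd : Nat.card P ∣ Nat.card G := Subgroup.card_dvd_of_le hP
  have hlk : (l : ZMod p) ≠ 0 := by
    intro h1
    rw [ZMod.natCast_eq_zero_iff] at h1
    exact hp (h1.trans ((dvd_mul_right l q).trans (hcard ▸ hdvd)))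
  have hqk : (q : ZMod p) ≠ 0 := by
    intro h1
    rw [ZMod.natCast_eq_zero_iff] at h1
    exact hp (h1.trans ((dvd_mul_left q l).trans (hcard ▸ hdvd)))
  refine pq_cyclic l q hl hq hcard hlk hqk (ρ.comp (Subgroup.inclusion hP)) ?_
  intro g hg w hw
  exact hρ (Subgroup.inclusion hP g) (by
    intro h1
    apply hg
    exact (Subgroup.inclusion_injective hP) (h1.trans (map_one _).symm)) w hw

end Pool.Agent.R493.MU
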