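import Pool.Agent.R493.MU.H

set_option autoImplicit false

namespace Pool.Agent.R493.MU

open Finset NumberField

/-- The exponents of `p` in the class numbers of the layers of the cyclotomic `Z_p`-extension of
`F` are bounded. -/
def Bounded (p : ℕ) (F : IntermediateField ℚ Om) : Prop :=
  ∃ B : ℕ, ∀ m : ℕ, 1 ≤ m → ∀ E : IntermediateField ℚ Om,
    E ≤ IntermediateField.adjoin ℚ
      {z : Om | z ^ (if p = 2 then 2 ^ (m + 2) else p ^ (m + 1)) = 1} →
    Module.finrank ℚ E = p ^ m →
    (∀ φ : E →+* ℂ, ∀ x : E, (φ x).im = 0) →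
    padicValNat p (Nat.card (ClassGroup (𝓞 ↥(F ⊔ E)))) ≤ B

theorem fpf_bounded (p : ℕ) [Fact p.Prime] (F : IntermediateField ℚ Om) [FiniteDimensional ℚ F]
    (G : Subgroup (F ≃ₐ[ℚ] F)) (hp : ¬ p ∣ Nat.card G)
    (hG : ∀ H : Subgroup (F ≃ₐ[ℚ] F), H ≤ G → (Nat.card H).Prime →
      Bounded p (fixedIn F H))
    (hF : ¬ Bounded p F) :
    ∃ (W : Type) (_ : AddCommGroup W) (_ : Module (ZMod p) W) (_ : FiniteDimensional (ZMod p) W)
      (ρ : Representation (ZMod p) G W), Nontrivial W ∧
        ∀ g : G, g ≠ 1 → ∀ w, ρ g w = w → w = 0 := by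
  classical
  have hfG : Finite (F ≃ₐ[ℚ] F) := inferInstance
  have : Fintype G := Fintype.ofFinite G
  let T : Set G := {t | (orderOf t).Prime}
  have : Fintype T := Fintype.ofFinite T
  have hT : ∀ t ∈ T, ¬ p ∣ orderOf t := fun t _ h => hp (h.trans (orderOf_dvd_natCard t))
  rcases fpf_or_relation p G T hT with ⟨W, i1, i2, i3, ρ, hW, hρ⟩ | ⟨c, y, hc⟩
  · refine ⟨W, i1, i2, i3, ρ, hW, fun g hg w hw => ?_⟩
    have h1 : orderOf g ≠ 1 := by rwa [Ne, orderOf_eq_one_iff]
    have hq := Nat.minFac_prime h1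
    obtain ⟨k, hk⟩ := Nat.minFac_dvd (orderOf g)
    have hk0 : k ≠ 0 := by
      rintro rfl
      rw [mul_zero] at hk
      exact (orderOf_pos g).ne' hk
    have h2 : orderOf (g ^ k) = (orderOf g).minFac := by
      rw [orderOf_pow' g hk0]
      have h3 : Nat.gcd (orderOf g) k = k := Nat.gcd_eq_right ⟨_, by rw [mul_comm]; exact hk⟩
      rw [h3]
      conv_lhs => rw [hk]
      exact Nat.mul_div_cancel _ (Nat.pos_of_ne_zero hk0)
    have h3 : g ^ k ∈ T := by
      show (orderOf (g ^ k)).Prime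
      rw [h2]; exact hq
    have h4 : ∀ i : ℕ, ρ (g ^ i) w = w := by
      intro i
      induction i with
      | zero => simp
      | succ i ih => rw [pow_succ, map_mul, Module.End.mul_apply, hw, ih]
    exact hρ _ h3 w (h4 k)
  · exfalso
    apply hF
    have h1 : ∀ t : T, Bounded p (fixedIn F (Subgroup.zpowers ((t : G) : F ≃ₐ[ℚ] F))) := by
      intro t
      apply hG
      · rw [Subgroup.zpowers_le]
        exact (t : G).2
      · rw [Nat.card_zpowers, Subgroup.orderOf_coe]
        exact t.2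
    choose C hC using h1
    refine ⟨∑ k : G × T × G, C k.2.1, fun m hm E hE hfr hre => ?_⟩
    have hp0 : p ≠ 0 := (Fact.out : p.Prime).ne_zero
    have hfin : FiniteDimensional ℚ E := by
      apply Module.finite_of_finrank_pos
      rw [hfr]
      exact pow_pos (Nat.pos_of_ne_zero hp0) m
    have hab : IsAbelianGalois ℚ E := by
      refine layer_abelian _ ?_ E hE
      split
      · exact pow_ne_zero _ two_ne_zero
      · exact pow_ne_zero _ hp0
    have hfs : FiniteDimensional ℚ ↥(F ⊔ E) := IntermediateField.finiteDimensional_sup F E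
    have hN : NumberField ↥(F ⊔ E) :=
      { to_charZero := inferInstance
        to_finiteDimensional := by
          convert hfs }
    have hcop : Nat.Coprime (Nat.card G) (Module.finrank ℚ E) := by
      rw [hfr]
      exact Nat.Coprime.pow_right m (((Fact.out : p.Prime).coprime_iff_not_dvd.2 hp).symm)
    obtain ⟨ι, hι, hτ⟩ := exists_action F E G hcop
    refine (class_ineq p T ι hι c y hc).trans ?_
    apply Finset.sum_le_sum
    intro k _
    obtain ⟨τ, hτF, hτE, hτι⟩ := hτ (k.2.1 : G)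
    have h2 := fixed_eq F E ((k.2.1 : G) : F ≃ₐ[ℚ] F) (isOfFinOrder_of_finite _)
      (ι (k.2.1 : G)) τ hτF hτE hτι
    have h3 := hC k.2.1 m hm E hE hfr hre
    refine le_trans (le_of_eq ?_) h3
    congr 1
    exact (card_congr (IntermediateField.liftAlgEquiv _).toRingEquiv).trans
      (card_congr (IntermediateField.equivOfEq h2).toRingEquiv)

end Pool.Agent.R493.MU
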