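import Pool.Agent.R493.MU.Q

set_option autoImplicit false

namespace Pool.Agent.R493.MU

open NumberField

theorem fixedIn_eq (F : IntermediateField ℚ Om) (H : Subgroup (F ≃ₐ[ℚ] F)) :
    IntermediateField.adjoin ℚ {x : Om | ∃ hx : x ∈ F, ∀ h ∈ H, h ⟨x, hx⟩ = ⟨x, hx⟩} =
      fixedIn F H := by
  apply le_antisymm
  · rw [IntermediateField.adjoin_le_iff]
    rintro x ⟨hx, h⟩
    have h1 : (⟨x, hx⟩ : F).1 ∈ IntermediateField.lift (IntermediateField.fixedField H) := by
      rw [IntermediateField.mem_lift, IntermediateField.mem_fixedField_iff]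
      exact h
    exact h1
  · rintro _ ⟨x, hx, rfl⟩
    apply IntermediateField.subset_adjoin
    exact ⟨x.2, (IntermediateField.mem_fixedField_iff _ _).1 hx⟩

end Pool.Agent.R493.MU
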