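import Mathlib
import Pool.Agent.R493.SI.Nest
/-!
# The share of the common good numbers in every almost invariant set of positive integers
-/

namespace Pool.Agent.R493.MU

open Finset Filter
open Pool.Agent.R493.OT (prs card_prs)
open Pool.Agent.R493.SI (mR mR_pos densN AllR Cliques)

/-- the numbers in `C ρ` are quotients of the members of large cliques, for all `ρ`, in all separated
systems of classes of positive integers prime to `Q` -/
def QuotCliques {R : ℕ} (K Q : ℕ) (C : Fin R → ℕ → Prop) : Prop :=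
  ∀ (m : ℕ) (ρ : Fin R) (t : Finset (Fin m)), t.card ≤ mR R + 1 → ∀ A : Fin m → Fin K → ℕ,
      (∀ i, Function.Injective (A i)) → (∀ i k, 0 < A i k ∧ Nat.Coprime (A i k) Q) →
      (∀ i j, i < j → ∀ k k', A i k < A j k') →
      ∃ S ⊆ t, 5 * t.card ≤ 18 * S.card ∧ ∃ c : Fin m → Fin K,
        ∀ i ∈ S, ∀ j ∈ S, i < j → A i (c i) ∣ A j (c j) → C ρ (A j (c j) / A i (c i))

open Classical in
theorem winM (R K Q : ℕ) (hQ : 0 < Q) (C : Fin R → ℕ → Prop) (h4 : QuotCliques K Q C)
    (ε : ℝ) (hε : 0 < ε) : ∃ n : ℕ, ∀ F : Finset ℕ, F.Nonempty →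
      (∀ D ∈ F, 0 < D ∧ Nat.Coprime D Q) →
      (∀ s : ℕ, 1 ≤ s → s ≤ n → Nat.Coprime s Q →
        (1 - 1 / (n : ℝ)) * F.card ≤ ((F.filter (fun D => s * D ∈ F)).card : ℝ)) →
      (1 / (mR R : ℝ) - ε) * F.card ≤ ((F.filter (fun D => ∀ ρ, C ρ D)).card : ℝ) := by
  by_contra hcon
  push Not at hcon
  choose F hFne hFpos hFinv hbad using hcon
  -- the sets are large
  have hFc : ∀ n, Q + 1 ≤ n → n ≤ (F n).card := by
    intro n hn
    by_contra hlt
    push Not at hlt
    have h1 := hFinv n (Q + 1) (by omega) hn (by simp)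
    have hn0 : (0 : ℝ) < n := by exact_mod_cast (by omega : 0 < n)
    have h2 : ((F n).card : ℝ) - 1 < (((F n).filter (fun D => (Q + 1) * D ∈ F n)).card : ℝ) := by
      have h3 : 1 / (n : ℝ) * (F n).card < 1 := by
        rw [one_div, inv_mul_lt_iff₀ hn0, mul_one]
        exact_mod_cast hlt
      nlinarith
    have h3 : (F n).card ≤ ((F n).filter (fun D => (Q + 1) * D ∈ F n)).card := by
      have h4 : ((F n).card : ℝ) < (((F n).filter (fun D => (Q + 1) * D ∈ F n)).card : ℝ) + 1 := by
        linarith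
      have h5 : (F n).card < ((F n).filter (fun D => (Q + 1) * D ∈ F n)).card + 1 := by
        exact_mod_cast h4
      omega
    have h4 := Finset.eq_of_subset_of_card_le (filter_subset _ _) h3
    have h5 := Finset.max'_mem (F n) (hFne n)
    have h6 : (Q + 1) * (F n).max' (hFne n) ∈ F n := by
      have : (F n).max' (hFne n) ∈ (F n).filter (fun D => (Q + 1) * D ∈ F n) := by
        rw [h4]; exact h5
      exact (mem_filter.1 this).2
    have h7 := Finset.le_max' (F n) _ h6
    have h8 := (hFpos n _ h5).1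
    nlinarith
  have hr1 : (1 : ℝ) ≤ (mR R : ℝ) := by exact_mod_cast mR_pos R
  have hr1' : 1 / (mR R : ℝ) ≤ 1 := by
    rw [div_le_one (by linarith)]
    exact hr1
  obtain ⟨m, hm⟩ := exists_nat_gt (4 / ε + 4)
  have hm4 : (4 : ℝ) < m := by
    have : 0 < 4 / ε := by positivity
    linarith
  obtain ⟨N, hN1, hN⟩ := densN R m K
  set η : ℝ := min (ε / 4) (1 / 2) with hη
  have hη0 : 0 < η := lt_min (by positivity) (by norm_num)
  have hηε : η ≤ ε / 4 := min_le_left _ _
  have hη2 : η ≤ 1 / 2 := min_le_right _ _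
  obtain ⟨f, hf1, hf2⟩ := exists_seq_of_forall_finset_exists
    (fun n : ℕ => 2 * N + 2 + (Q + 1) ≤ n)
    (fun n n' : ℕ => (((F n).sup id : ℕ) : ℝ) ≤ η * n' ∧ 1 / (n' : ℝ) ≤ η) (by
      intro S _
      have e1 : ∀ᶠ n' : ℕ in atTop, ∀ n ∈ S, (((F n).sup id : ℕ) : ℝ) ≤ η * n' ∧ 1 / (n' : ℝ) ≤ η := by
        rw [Filter.eventually_all_finset]
        intro n _
        have t1 : Tendsto (fun n' : ℕ => η * (n' : ℝ)) atTop atTop :=
          Tendsto.const_mul_atTop hη0 tendsto_natCast_atTop_atTop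
        filter_upwards [t1.eventually_ge_atTop (((F n).sup id : ℕ) : ℝ),
          t1.eventually_ge_atTop 1, eventually_ge_atTop 1] with n' h1 h2 h3
        refine ⟨h1, ?_⟩
        have h6 : (0 : ℝ) < n' := by exact_mod_cast h3
        rw [div_le_iff₀ h6]
        exact h2
      obtain ⟨n, h1, h2⟩ := ((eventually_ge_atTop (2 * N + 2 + (Q + 1))).and e1).exists
      exact ⟨n, h1, h2⟩)
  have hFn : ∀ i, f i ≤ (F (f i)).card := fun i => hFc _ (by have := hf1 i; omega)
  have hTN : ∀ n, 2 * N + 2 ≤ (F (f n)).card := fun n => by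
    have := hFn n
    have := hf1 n
    omega
  have hTr : ∀ n, (0 : ℝ) < (F (f n)).card := fun n => by
    have := hTN n
    exact_mod_cast (by omega : 0 < (F (f n)).card)
  set e : ℕ → ℕ := fun n => ⌊η * (F (f n)).card⌋₊ with he
  have he1 : ∀ n, (e n : ℝ) ≤ η * (F (f n)).card := fun n =>
    Nat.floor_le (mul_nonneg hη0.le (hTr n).le)
  have he2 : ∀ n (a : ℕ), (a : ℝ) ≤ η * (F (f n)).card → a ≤ e n := fun n a ha => Nat.le_floor ha
  have he3 : ∀ n, 2 * e n ≤ (F (f n)).card := fun n => by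
    have h1 : (2 * e n : ℝ) ≤ (F (f n)).card := by
      have := he1 n
      have := hTr n
      nlinarith
    exact_mod_cast h1
  set W : ℕ → Finset ℕ := fun n => (F (f n)).filter (fun D => e n < D) with hW
  have hWc : ∀ n, (F (f n)).card - e n ≤ (W n).card := fun n => by
    have h1 := Finset.card_filter_add_card_filter_not (s := F (f n)) (fun D => e n < D)
    have h2 : ((F (f n)).filter (fun D => ¬ e n < D)).card ≤ e n := by
      have h3 : (F (f n)).filter (fun D => ¬ e n < D) ⊆ Ioc 0 (e n) := by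
        intro D hD
        obtain ⟨h4, h5⟩ := mem_filter.1 hD
        rw [mem_Ioc]
        exact ⟨(hFpos _ _ h4).1, by omega⟩
      refine (card_le_card h3).trans ?_
      rw [Nat.card_Ioc]
      omega
    simp only [hW]
    omega
  have hWc' : ∀ n, ((F (f n)).card : ℝ) - e n ≤ ((W n).card : ℝ) := fun n => by
    have h1 := hWc n
    have h2 : (((F (f n)).card - e n : ℕ) : ℝ) ≤ ((W n).card : ℝ) := by exact_mod_cast h1
    rwa [Nat.cast_sub (by have := he3 n; omega)] at h2
  have hmain := hN ℕ (fun ρ _ _ a b => ¬ a ∣ b ∨ C ρ (b / a)) (fun i : Fin m => W i)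
    (fun i => by
      show N ≤ (W i).card
      have := hWc i
      have := hTN i
      have := he3 i
      omega) (by
      intro ρ t ht A hA hmem
      have h5 := h4 m ρ t ht A hA
        (fun i k => hFpos _ _ (mem_filter.1 (hmem i k)).1) (by
        intro i j hij k k'
        have h1 := (mem_filter.1 (hmem i k)).1
        have h2 := (mem_filter.1 (hmem j k')).2
        have h3 := (hf2 _ _ (show (i : ℕ) < j from hij)).1
        have h5 : A i k ≤ (F (f i)).sup id := Finset.le_sup (f := id) h1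
        have h6 : (F (f i)).sup id ≤ e j := he2 j _ (h3.trans (by
          apply mul_le_mul_of_nonneg_left _ hη0.le
          exact_mod_cast hFn j))
        omega)
      obtain ⟨S, hS, hSc, c, hc⟩ := h5
      refine ⟨S, hS, hSc, c, fun i hi j hj hij => ?_⟩
      by_cases hd : A i (c i) ∣ A j (c j)
      · exact Or.inr (hc i hi j hj hij hd)
      · exact Or.inl hd)
  -- one pair
  have hpair : ∀ p ∈ prs m,
      ((∑ a ∈ W p.1, ∑ b ∈ W p.2,
        (if AllR (fun (ρ : Fin R) (_ _ : Fin m) (a b : ℕ) => ¬ a ∣ b ∨ C ρ (b / a)) p.1 p.2 a b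
          then (1 : ℝ) else 0)) /
        (((W p.1).card : ℝ) * ((W p.2).card : ℝ))) ≤ 1 / (mR R : ℝ) - ε / 2 := by
    intro p hp
    have hlt : (p.1 : ℕ) < p.2 := (mem_filter.1 hp).2
    obtain ⟨hrel, hrel2⟩ := hf2 _ _ hlt
    have hpos : ∀ n, (0 : ℝ) < (W n).card := fun n => by
      have := hTN n
      have := he3 n
      have := hWc n
      exact_mod_cast (by omega : 0 < (W n).card)
    have h0 : (0 : ℝ) < ((W p.1).card : ℝ) * ((W p.2).card : ℝ) := mul_pos (hpos _) (hpos _)
    rw [div_le_iff₀ h0]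
    set Gd := (F (f p.2)).filter (fun k => ∀ ρ, C ρ k) with hGd
    have h9 : (Gd.card : ℝ) < (1 / (mR R : ℝ) - ε) * (F (f p.2)).card := hbad (f p.2)
    have hpos2 : 0 < 1 / (mR R : ℝ) - ε := by
      by_contra hneg
      push Not at hneg
      have h10 := mul_nonpos_of_nonpos_of_nonneg hneg (hTr p.2).le
      have h11 : (0 : ℝ) ≤ Gd.card := Nat.cast_nonneg _
      linarith
    have hrow : ∀ a ∈ W p.1, ∑ b ∈ W p.2,
        (if AllR (fun (ρ : Fin R) (_ _ : Fin m) (a b : ℕ) => ¬ a ∣ b ∨ C ρ (b / a)) p.1 p.2 a b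
          then (1 : ℝ) else 0) ≤ (1 / (mR R : ℝ) - ε / 2) * ((W p.2).card : ℝ) := by
      intro a ha
      have haF := (mem_filter.1 ha).1
      have hapos := hFpos _ _ haF
      have e1 : ∑ b ∈ W p.2,
        (if AllR (fun (ρ : Fin R) (_ _ : Fin m) (a b : ℕ) => ¬ a ∣ b ∨ C ρ (b / a)) p.1 p.2 a b
          then (1 : ℝ) else 0) = (((W p.2).filter (fun b =>
          AllR (fun (ρ : Fin R) (_ _ : Fin m) (a b : ℕ) => ¬ a ∣ b ∨ C ρ (b / a)) p.1 p.2 a b)).card : ℝ) := by
        rw [Finset.card_filter]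
        push_cast
        rfl
      rw [e1]
      have hae : a ≤ f p.2 := by
        have h5 : a ≤ (F (f p.1)).sup id := Finset.le_sup (f := id) haF
        have h6 : ((((F (f p.1)).sup id : ℕ)) : ℝ) ≤ f p.2 := by
          have h7 : (0 : ℝ) ≤ f p.2 := Nat.cast_nonneg _
          nlinarith
        have h7 : (F (f p.1)).sup id ≤ f p.2 := by exact_mod_cast h6
        omega
      have hinv := hFinv (f p.2) a hapos.1 hae hapos.2
      -- the elements of `F` which are not `a` times an element of `F`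
      set I := (F (f p.2)).filter (fun D => a * D ∈ F (f p.2)) with hI
      have h5 : (W p.2).filter (fun b =>
          AllR (fun (ρ : Fin R) (_ _ : Fin m) (a b : ℕ) => ¬ a ∣ b ∨ C ρ (b / a)) p.1 p.2 a b) ⊆
          Gd.image (fun k => a * k) ∪ (F (f p.2) \ I.image (fun k => a * k)) := by
        intro b hb
        obtain ⟨h6, h7⟩ := mem_filter.1 hb
        have hbF := (mem_filter.1 h6).1
        by_cases h8 : b ∈ I.image (fun k => a * k)
        · obtain ⟨k, hk, rfl⟩ := mem_image.1 h8
          refine Finset.mem_union_left _ (mem_image.2 ⟨k, mem_filter.2 ⟨(mem_filter.1 hk).1, fun ρ => ?_⟩, rfl⟩)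
          rcases h7 ρ with h9 | h9
          · exact absurd (dvd_mul_right a k) h9
          · rwa [Nat.mul_div_cancel_left _ hapos.1] at h9
        · exact Finset.mem_union_right _ (Finset.mem_sdiff.2 ⟨hbF, h8⟩)
      have hIc : (I.image (fun k => a * k)).card = I.card :=
        card_image_of_injective _ (fun x y hxy => Nat.eq_of_mul_eq_mul_left hapos.1 hxy)
      have hIF : I.image (fun k => a * k) ⊆ F (f p.2) := by
        intro b hb
        obtain ⟨k, hk, rfl⟩ := mem_image.1 hb
        exact (mem_filter.1 hk).2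
      have h6 := (card_le_card h5).trans (card_union_le _ _)
      have h7 : (Gd.image (fun k => a * k)).card ≤ Gd.card := card_image_le
      have h8 : ((F (f p.2) \ I.image (fun k => a * k)).card : ℝ) ≤ η * (F (f p.2)).card := by
        rw [card_sdiff_of_subset hIF, hIc, Nat.cast_sub (card_filter_le _ _)]
        have h10 : 1 / ((f p.2 : ℕ) : ℝ) * (F (f p.2)).card ≤ η * (F (f p.2)).card :=
          mul_le_mul_of_nonneg_right hrel2 (Nat.cast_nonneg _)
        linarith
      have h6r : (((W p.2).filter (fun b =>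
          AllR (fun (ρ : Fin R) (_ _ : Fin m) (a b : ℕ) => ¬ a ∣ b ∨ C ρ (b / a)) p.1 p.2 a b)).card : ℝ) ≤
          Gd.card + ((F (f p.2) \ I.image (fun k => a * k)).card : ℝ) := by
        exact_mod_cast h6.trans (Nat.add_le_add_right h7 _)
      have h12 := he1 p.2
      have h13 := hTr p.2
      have h14 : (1 - η) * ((F (f p.2)).card : ℝ) ≤ ((W p.2).card : ℝ) := by
        have := hWc' p.2
        linarith
      have h15 : 0 < 1 / (mR R : ℝ) - ε / 2 := by linarith
      refine le_trans ?_ (mul_le_mul_of_nonneg_left h14 h15.le)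
      refine (h6r.trans (add_le_add h9.le h8)).trans ?_
      rw [← add_mul, ← mul_assoc]
      apply mul_le_mul_of_nonneg_right _ h13.le
      nlinarith
    refine (Finset.sum_le_sum hrow).trans ?_
    rw [Finset.sum_const, nsmul_eq_mul]
    apply le_of_eq
    ring
  have hsum := Finset.sum_le_sum hpair
  rw [Finset.sum_const, nsmul_eq_mul, card_prs] at hsum
  have h11 := hmain.trans hsum
  have h13 : 4 / ε * ε = 4 := by field_simp
  have h14 : (4 / ε + 4) * ε < m * ε := mul_lt_mul_of_pos_right hm hε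
  have h15 : 0 < 1 / (mR R : ℝ) := by positivity
  have h16 : (m : ℝ) ^ 2 / (mR R : ℝ) = m ^ 2 * (1 / (mR R : ℝ)) := by ring
  rw [h16] at h11
  set x : ℝ := 1 / (mR R : ℝ)
  nlinarith

end Pool.Agent.R493.MU
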