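import Mathlib
import Pool.Agent.R493.SI.Cls
import Pool.Agent.R493.MU.Win
/-!
# The good multipliers for several constants
-/

namespace Pool.Agent.R493.MU

open Finset Filter
open Pool.Agent.R493.OT (Many good_of_cnt)
open Pool.Agent.R493.SI (mR mR_pos classes)

theorem coprime_prod {R : ℕ} (c : Fin R → ℤ) (s : ℕ) :
    Nat.Coprime s (∏ ρ, (c ρ).natAbs) ↔ ∀ ρ, IsCoprime (s : ℤ) (c ρ) := by
  rw [Nat.coprime_fintype_prod_right_iff]
  apply forall_congr'
  intro ρ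
  rw [Int.isCoprime_iff_gcd_eq_one]
  rfl

open Classical in
/-- the multipliers `D` such that, for all `ρ`, many primes `q` have a prime `D (q - c) + c`,
`c = c ρ`: their share in every almost invariant set -/
theorem mult (R : ℕ) : ∃ B : ℕ, ∀ c : Fin R → ℤ, (∀ ρ, c ρ ≠ 0) → ∀ ε : ℝ, 0 < ε →
    ∃ n : ℕ, ∀ F : Finset ℕ, F.Nonempty →
      (∀ D ∈ F, 0 < D ∧ ∀ ρ, IsCoprime (D : ℤ) (c ρ)) →
      (∀ s : ℕ, 1 ≤ s → s ≤ n → (∀ ρ, IsCoprime (s : ℤ) (c ρ)) →
        (1 - 1 / (n : ℝ)) * F.card ≤ ((F.filter (fun D => s * D ∈ F)).card : ℝ)) →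
      (1 / (mR R : ℝ) - ε) * F.card ≤
        ((F.filter (fun D : ℕ => ∀ ρ, Many B (c ρ - (D : ℤ) * c ρ) (D : ℤ))).card : ℝ) := by
  obtain ⟨K, C, hK, h⟩ := classes (mR R + 1)
  refine ⟨C + 1, fun c hc ε hε => ?_⟩
  have hQ : 0 < ∏ ρ, (c ρ).natAbs := Finset.prod_pos (fun ρ _ => Int.natAbs_pos.2 (hc ρ))
  obtain ⟨n, hn⟩ := winM R K (∏ ρ, (c ρ).natAbs) hQ
    (fun ρ D => Many (C + 1) (c ρ - (D : ℤ) * c ρ) D) (by
    intro m ρ t ht A hA hpos hlt
    rcases Nat.eq_zero_or_pos t.card with h0 | h0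
    · refine ⟨∅, empty_subset _, by omega, fun _ => ⟨0, hK⟩, ?_⟩
      intro i hi
      exact absurd hi (notMem_empty _)
    set e := t.orderEmbOfFin rfl with he
    have hemem : ∀ g, e g ∈ t := fun g => t.orderEmbOfFin_mem rfl g
    have hcop : ∀ i k, IsCoprime ((A i k : ℕ) : ℤ) (c ρ) := fun i k =>
      (coprime_prod c _).1 (hpos i k).2 ρ
    obtain ⟨S, cc, hS, hfr⟩ := h t.card h0 ht
      (fun g i => (((A (e g) i : ℕ) : ℤ), c ρ))
      (by
        intro x y hxy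
        simp only [Prod.mk.injEq, Nat.cast_inj, and_true] at hxy
        rcases lt_trichotomy x.1 y.1 with h4 | h4 | h4
        · exact absurd hxy (hlt _ _ (e.strictMono h4) _ _).ne
        · rw [h4] at hxy
          exact Prod.ext h4 (hA _ hxy)
        · exact absurd hxy (hlt _ _ (e.strictMono h4) _ _).ne')
      (fun g i => ⟨by
        show (0 : ℤ) < ((A (e g) i : ℕ) : ℤ)
        exact_mod_cast (hpos (e g) i).1, hcop _ _⟩)
      (by
        intro p hp _
        by_cases hpc : (p : ℤ) ∣ c ρ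
        · refine ⟨1, fun g i hd => ?_⟩
          have h1 : (p : ℤ) ∣ ((A (e g) i : ℕ) : ℤ) := by
            have h2 := (Int.dvd_add_left hpc).1 hd
            simpa using h2
          have h2 := (hcop (e g) i).isUnit_of_dvd' h1 hpc
          exact (Nat.prime_iff_prime_int.1 hp).not_isUnit h2
        · refine ⟨0, fun g i hd => hpc ?_⟩
          simpa using hd)
    refine ⟨S.map e.toEmbedding, ?_, ?_, Function.extend e cc (fun _ => ⟨0, hK⟩), ?_⟩
    · intro i hi
      obtain ⟨g, _, rfl⟩ := Finset.mem_map.1 hi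
      exact hemem g
    · rw [card_map]
      exact hS
    · intro i hi j hj hij hdvd
      obtain ⟨g, hgS, rfl⟩ := Finset.mem_map.1 hi
      obtain ⟨g', hgS', rfl⟩ := Finset.mem_map.1 hj
      have e1 : (e.toEmbedding : Fin t.card → Fin m) = e := rfl
      simp only [e1] at hij hdvd ⊢
      rw [e.injective.extend_apply, e.injective.extend_apply] at hdvd ⊢
      have h5 : ((A (e g') (cc g') : ℕ) : ℤ) = ((A (e g) (cc g) : ℕ) : ℤ) *
          ((A (e g') (cc g') / A (e g) (cc g) : ℕ) : ℤ) := by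
        rw [← Nat.cast_mul, Nat.mul_div_cancel' hdvd]
      exact good_of_cnt (s := ((A (e g) (cc g) : ℕ) : ℤ)) (s' := ((A (e g') (cc g') : ℕ) : ℤ))
        (by exact_mod_cast (hpos (e g) (cc g)).1) h5 (mem_image.2 ⟨g, hgS, rfl⟩)
        (mem_image.2 ⟨g', hgS', rfl⟩) hfr) ε hε
  refine ⟨n, fun F hF hFc hinv => ?_⟩
  exact hn F hF (fun D hD => ⟨(hFc D hD).1, (coprime_prod c D).2 (hFc D hD).2⟩)
    (fun s h1 h2 h3 => hinv s h1 h2 ((coprime_prod c s).1 h3))

end Pool.Agent.R493.MU
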