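import Pool.Agent.R493.MU.E

set_option autoImplicit false

namespace Pool.Agent.R493.MU

open Finset NumberField nonZeroDivisors

/-- The subgroup of the class group generated by the prime ideals above `p`. -/
noncomputable def classesAbove (p : ℕ) (K : Type) [Field K] [NumberField K] :
    Subgroup (ClassGroup (𝓞 K)) :=
  Subgroup.closure {c | ∃ I : nonZeroDivisors (Ideal (𝓞 K)), (I : Ideal (𝓞 K)).IsPrime ∧
    (p : 𝓞 K) ∈ (I : Ideal (𝓞 K)) ∧ ClassGroup.mk0 I = c}

/-- The number of elements of order dividing `p` in the class group modulo the classes of the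
prime ideals above `p`. -/
noncomputable def torsionCard (p : ℕ) (K : Type) [Field K] [NumberField K] : ℕ :=
  Nat.card {g : ClassGroup (𝓞 K) ⧸ classesAbove p K // g ^ p = 1}

theorem mem_above (p : ℕ) (K : Type) [Field K] [NumberField K] (I : (Ideal (𝓞 K))⁰)
    (h : (p : 𝓞 K) ∈ (I : Ideal (𝓞 K))) : ClassGroup.mk0 I ∈ classesAbove p K := by
  classical
  have key : ∀ J : Ideal (𝓞 K), (∀ Q : Ideal (𝓞 K), Q.IsPrime → J ≤ Q → (p : 𝓞 K) ∈ Q) →
      ∀ hJ : J ∈ (Ideal (𝓞 K))⁰, ClassGroup.mk0 ⟨J, hJ⟩ ∈ classesAbove p K := by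
    intro J
    induction J using UniqueFactorizationMonoid.induction_on_prime with
    | h₁ =>
      intro _ hJ
      exact absurd rfl (mem_nonZeroDivisors_iff_ne_zero.1 hJ)
    | h₂ x hx =>
      intro _ hJ
      have h1 : (⟨x, hJ⟩ : (Ideal (𝓞 K))⁰) = 1 := by
        apply Subtype.ext
        show x = 1
        rw [Ideal.isUnit_iff.1 hx, Ideal.one_eq_top]
      rw [h1, map_one]
      exact Subgroup.one_mem _
    | h₃ a q ha hq ih =>
      intro hQ hJ
      have hq0 : q ∈ (Ideal (𝓞 K))⁰ := mem_nonZeroDivisors_iff_ne_zero.2 hq.ne_zero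
      have ha0 : a ∈ (Ideal (𝓞 K))⁰ := mem_nonZeroDivisors_iff_ne_zero.2 ha
      have h1 : (⟨q * a, hJ⟩ : (Ideal (𝓞 K))⁰) = ⟨q, hq0⟩ * ⟨a, ha0⟩ := rfl
      rw [h1, map_mul]
      apply Subgroup.mul_mem
      · apply Subgroup.subset_closure
        have hqp : q.IsPrime := Ideal.isPrime_of_prime hq
        exact ⟨⟨q, hq0⟩, hqp, hQ q hqp Ideal.mul_le_left, rfl⟩
      · exact ih (fun Q hQp hle => hQ Q hQp (Ideal.mul_le_right.trans hle)) ha0
  exact key I (fun Q _ hle => hle h) I.2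

theorem above_le_comap (p : ℕ) {A B : Type} [Field A] [NumberField A] [Field B] [NumberField B]
    (f : ClassGroup (𝓞 A) →* ClassGroup (𝓞 B))
    (h : ∀ I : (Ideal (𝓞 A))⁰, (p : 𝓞 A) ∈ (I : Ideal (𝓞 A)) →
      ∃ J : (Ideal (𝓞 B))⁰, (p : 𝓞 B) ∈ (J : Ideal (𝓞 B)) ∧
        f (ClassGroup.mk0 I) = ClassGroup.mk0 J) :
    classesAbove p A ≤ (classesAbove p B).comap f := by
  unfold classesAbove
  rw [Subgroup.closure_le]
  rintro _ ⟨I, -, hp, rfl⟩
  obtain ⟨J, hJ, h1⟩ := h I hp
  show f (ClassGroup.mk0 I) ∈ classesAbove p B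
  rw [h1]
  exact mem_above p B J hJ

theorem above_ac (p : ℕ) {N : Type} [Field N] [NumberField N] (g : N ≃ₐ[ℚ] N) :
    classesAbove p N ≤ (classesAbove p N).comap (ac g) := by
  apply above_le_comap
  intro I hI
  refine ⟨ai g I, ?_, ac_mk0 g I⟩
  have h1 := Ideal.mem_map_of_mem (ri g) hI
  rw [map_natCast] at h1
  exact h1

theorem above_ext (p : ℕ) {A B : Type} [Field A] [NumberField A] [Field B] [NumberField B]
    [Algebra (𝓞 A) (𝓞 B)] [Module.IsTorsionFree (𝓞 A) (𝓞 B)] :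
    classesAbove p A ≤ (classesAbove p B).comap (ClassGroup.extendedHom (𝓞 A) (𝓞 B)) := by
  apply above_le_comap
  intro I hI
  refine ⟨ClassGroup.extendedIdeal (𝓞 A) (𝓞 B) I, ?_, ClassGroup.extendedHom_mk0 (𝓞 A) (𝓞 B) I⟩
  have h1 := Ideal.mem_map_of_mem (algebraMap (𝓞 A) (𝓞 B)) hI
  rw [map_natCast] at h1
  exact h1

/-- The induced map on the quotients. -/
noncomputable def qmap (p : ℕ) {A B : Type} [Field A] [NumberField A] [Field B] [NumberField B]
    (f : ClassGroup (𝓞 A) →* ClassGroup (𝓞 B))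
    (h : classesAbove p A ≤ (classesAbove p B).comap f) :
    (ClassGroup (𝓞 A) ⧸ classesAbove p A) →* (ClassGroup (𝓞 B) ⧸ classesAbove p B) :=
  QuotientGroup.map _ _ f h

theorem qmap_mk (p : ℕ) {A B : Type} [Field A] [NumberField A] [Field B] [NumberField B]
    (f : ClassGroup (𝓞 A) →* ClassGroup (𝓞 B))
    (h : classesAbove p A ≤ (classesAbove p B).comap f) (x : ClassGroup (𝓞 A)) :
    qmap p f h (x : ClassGroup (𝓞 A) ⧸ classesAbove p A) =
      ((f x : ClassGroup (𝓞 B)) : ClassGroup (𝓞 B) ⧸ classesAbove p B) := rfl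

/-- Isomorphic fields. -/
theorem torsionCard_le_of_equiv (p : ℕ) {A B : Type} [Field A] [NumberField A] [Field B]
    [NumberField B] (e : A ≃+* B) : torsionCard p A ≤ torsionCard p B := by
  classical
  let e1 : 𝓞 A ≃+* 𝓞 B := RingOfIntegers.mapRingEquiv e
  let i1 : Algebra (𝓞 A) (𝓞 B) := (e1 : 𝓞 A →+* 𝓞 B).toAlgebra
  let i2 : Algebra (𝓞 B) (𝓞 A) := (e1.symm : 𝓞 B →+* 𝓞 A).toAlgebra
  have ht1 : Module.IsTorsionFree (𝓞 A) (𝓞 B) := by
    have : FaithfulSMul (𝓞 A) (𝓞 B) := (faithfulSMul_iff_algebraMap_injective _ _).2 e1.injective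
    infer_instance
  have ht2 : Module.IsTorsionFree (𝓞 B) (𝓞 A) := by
    have : FaithfulSMul (𝓞 B) (𝓞 A) :=
      (faithfulSMul_iff_algebraMap_injective _ _).2 e1.symm.injective
    infer_instance
  let f1 := qmap p (ClassGroup.extendedHom (𝓞 A) (𝓞 B)) (above_ext p)
  let f2 := qmap p (ClassGroup.extendedHom (𝓞 B) (𝓞 A)) (above_ext p)
  have hf : ∀ x, f2 (f1 x) = x := by
    intro x
    obtain ⟨y, rfl⟩ := QuotientGroup.mk_surjective x
    obtain ⟨I, rfl⟩ := ClassGroup.mk0_surjective y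
    show ((ClassGroup.extendedHom (𝓞 B) (𝓞 A) (ClassGroup.extendedHom (𝓞 A) (𝓞 B)
      (ClassGroup.mk0 I)) : ClassGroup (𝓞 A)) : ClassGroup (𝓞 A) ⧸ classesAbove p A) = _
    rw [ClassGroup.extendedHom_mk0 (𝓞 A) (𝓞 B) I, ClassGroup.extendedHom_mk0 (𝓞 B) (𝓞 A)]
    congr 2
    apply Subtype.ext
    show ((I : Ideal (𝓞 A)).map (e1 : 𝓞 A →+* 𝓞 B)).map (e1.symm : 𝓞 B →+* 𝓞 A) = I
    rw [Ideal.map_map]
    have h1 : (e1.symm : 𝓞 B →+* 𝓞 A).comp (e1 : 𝓞 A →+* 𝓞 B) = RingHom.id _ := by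
      ext x
      simp
    rw [h1, Ideal.map_id]
  have hinj : Function.Injective f1 := Function.LeftInverse.injective hf
  unfold torsionCard
  refine Nat.card_le_card_of_injective
    (fun g : {g : ClassGroup (𝓞 A) ⧸ classesAbove p A // g ^ p = 1} =>
      (⟨f1 g.1, by rw [← map_pow, g.2, map_one]⟩ :
        {g : ClassGroup (𝓞 B) ⧸ classesAbove p B // g ^ p = 1})) ?_
  intro a b hab
  exact Subtype.ext (hinj (congrArg Subtype.val hab))

/-- torsion and cotorsion -/
theorem card_tors (p : ℕ) {A : Type} [CommGroup A] [Finite A] :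
    Nat.card {g : A // g ^ p = 1} = (powMonoidHom p : A →* A).range.index := by
  have h1 : Nat.card {g : A // g ^ p = 1} = Nat.card (powMonoidHom p : A →* A).ker :=
    Nat.card_congr (Equiv.subtypeEquivRight fun g => by
      rw [MonoidHom.mem_ker]
      rfl)
  rw [h1]
  have h2 := Subgroup.card_mul_index (powMonoidHom p : A →* A).range
  have h3 : Nat.card (powMonoidHom p : A →* A).ker * Nat.card (powMonoidHom p : A →* A).range =
      Nat.card A := by
    have h4 := Subgroup.card_mul_index (powMonoidHom p : A →* A).ker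
    rw [Subgroup.index_ker] at h4
    exact h4
  have h5 : 0 < Nat.card (powMonoidHom p : A →* A).range := Nat.card_pos
  rw [← h2, mul_comm] at h3
  exact Nat.eq_of_mul_eq_mul_left h5 h3

theorem tors_le_of_surj (p : ℕ) {A B : Type} [CommGroup A] [Finite A] [CommGroup B] [Finite B]
    (f : B →* A) (hf : Function.Surjective f) :
    Nat.card {g : A // g ^ p = 1} ≤ Nat.card {g : B // g ^ p = 1} := by
  rw [card_tors, card_tors]
  have h1 : (powMonoidHom p : B →* B).range ≤ ((powMonoidHom p : A →* A).range).comap f := by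
    rintro _ ⟨b, rfl⟩
    exact ⟨f b, (map_pow f b p).symm⟩
  have h2 := Subgroup.index_comap_of_surjective (powMonoidHom p : A →* A).range hf
  rw [← h2]
  exact Nat.le_of_dvd (Nat.pos_of_ne_zero Subgroup.index_ne_zero_of_finite)
    (Subgroup.index_dvd_of_le h1)

theorem tors_le_of_gen (p : ℕ) [Fact p.Prime] {A : Type} [CommGroup A] [Finite A] (I : Subgroup A)
    (h : ∀ x : A, ∃ z : A, x * z ^ p ∈ I) :
    Nat.card {g : A // g ^ p = 1} ≤ Nat.card {g : I // g ^ p = 1} := by
  classical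
  have h0 := val_le_of_gen p I h
  have h1 : ¬ p ∣ Nat.card (A ⧸ I) := by
    rw [Subgroup.card_eq_card_quotient_mul_card_subgroup I, padicValNat.mul Nat.card_pos.ne'
      Nat.card_pos.ne'] at h0
    intro hp
    have h2 : 1 ≤ padicValNat p (Nat.card (A ⧸ I)) :=
      one_le_padicValNat_of_dvd Nat.card_pos.ne' hp
    omega
  have h2 : ∀ g : A, g ^ p = 1 → g ∈ I := by
    intro g hg
    rw [← QuotientGroup.eq_one_iff]
    have h3 : ((g : A ⧸ I)) ^ p = 1 := by
      rw [← QuotientGroup.mk_pow, hg]; rfl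
    have h4 : orderOf (g : A ⧸ I) ∣ p := orderOf_dvd_of_pow_eq_one h3
    rcases (Nat.dvd_prime Fact.out).1 h4 with h5 | h5
    · rwa [orderOf_eq_one_iff] at h5
    · exact absurd (h5 ▸ orderOf_dvd_natCard (g : A ⧸ I)) h1
  refine Nat.card_le_card_of_injective
    (fun g : {g : A // g ^ p = 1} => (⟨⟨g.1, h2 g.1 g.2⟩, by
      apply Subtype.ext
      exact g.2⟩ : {g : I // g ^ p = 1})) ?_
  intro a b hab
  apply Subtype.ext
  exact congrArg (fun x : {g : I // g ^ p = 1} => ((x.1 : I) : A)) hab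

theorem tors_pi (p : ℕ) {κ : Type} [Fintype κ] (B : κ → Type) [∀ k, CommGroup (B k)] :
    Nat.card {g : (∀ k, B k) // g ^ p = 1} = ∏ k, Nat.card {g : B k // g ^ p = 1} := by
  rw [← Nat.card_pi]
  refine Nat.card_congr ?_
  refine (Equiv.subtypeEquivRight (q := fun g : (∀ k, B k) => ∀ k, g k ^ p = 1) fun g => ?_).trans
    (Equiv.subtypePiEquivPi (β := B) (p := fun k (b : B k) => b ^ p = 1))
  constructor
  · intro h k
    exact congrFun h k
  · intro h
    funext k
    exact h k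

section

variable {N : Type} [Field N] [NumberField N]

/-- The torsion inequality of a norm relation modulo `p`. -/
theorem tors_ineq (p : ℕ) [Fact p.Prime] {G : Type} [Group G] [Fintype G] [DecidableEq G]
    (T : Set G) [Fintype T] (ι : G →* (N ≃ₐ[ℚ] N)) (hι : Function.Injective ι)
    (c : G × T × G → ℤ) (y : G → ℤ) (hc : ∀ g : G, ∑ x : G × T × G,
      c x * (((range (orderOf (x.2.1 : G))).filter
        (fun i => x.1 * (x.2.1 : G) ^ i * x.2.2 = g)).card : ℤ) =
          (if g = 1 then 1 else 0) + (p : ℤ) * y g) :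
    torsionCard p N ≤ ∏ k : G × T × G,
      torsionCard p (IntermediateField.fixedField (Subgroup.zpowers (ι (k.2.1 : G)))) := by
  classical
  let B : G × T × G → Type := fun k =>
    ClassGroup (𝓞 (IntermediateField.fixedField (Subgroup.zpowers (ι (k.2.1 : G))))) ⧸
      classesAbove p (IntermediateField.fixedField (Subgroup.zpowers (ι (k.2.1 : G))))
  let j : ∀ k, B k →* (ClassGroup (𝓞 N) ⧸ classesAbove p N) := fun k =>
    qmap p (ClassGroup.extendedHom
      (𝓞 (IntermediateField.fixedField (Subgroup.zpowers (ι (k.2.1 : G))))) (𝓞 N)) (above_ext p)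
  let act : G → (ClassGroup (𝓞 N) ⧸ classesAbove p N) →* (ClassGroup (𝓞 N) ⧸ classesAbove p N) :=
    fun g => qmap p (ac (ι g)) (above_ac p (ι g))
  let Ψ : (∀ k, B k) →* (ClassGroup (𝓞 N) ⧸ classesAbove p N) := ∏ k : G × T × G,
    ((act k.1).comp (j k)).comp (Pi.evalMonoidHom B k)
  have hΨ : ∀ b : (∀ k, B k), Ψ b = ∏ k : G × T × G, act k.1 (j k (b k)) := by
    intro b
    simp only [Ψ]
    rw [MonoidHom.finsetProd_apply]
    rfl
  have hact : ∀ g h x, act (g * h) x = act g (act h x) := by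
    intro g h x
    obtain ⟨x, rfl⟩ := QuotientGroup.mk_surjective x
    show ((ac (ι (g * h)) x : ClassGroup (𝓞 N)) : ClassGroup (𝓞 N) ⧸ classesAbove p N) =
      ((ac (ι g) (ac (ι h) x) : ClassGroup (𝓞 N)) : ClassGroup (𝓞 N) ⧸ classesAbove p N)
    rw [map_mul, ac_mul]
  have hact1 : ∀ x, act 1 x = x := by
    intro x
    obtain ⟨x, rfl⟩ := QuotientGroup.mk_surjective x
    show ((ac (ι 1) x : ClassGroup (𝓞 N)) : ClassGroup (𝓞 N) ⧸ classesAbove p N) = _
    rw [map_one, ac_one]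
  have hnr : ∀ (h : G) (x : ClassGroup (𝓞 N) ⧸ classesAbove p N),
      ∃ y : ClassGroup (𝓞 (IntermediateField.fixedField (Subgroup.zpowers (ι h)))) ⧸
        classesAbove p (IntermediateField.fixedField (Subgroup.zpowers (ι h))),
        qmap p (ClassGroup.extendedHom
          (𝓞 (IntermediateField.fixedField (Subgroup.zpowers (ι h)))) (𝓞 N)) (above_ext p) y =
            ∏ i ∈ range (orderOf h), act (h ^ i) x := by
    intro h x
    obtain ⟨x, rfl⟩ := QuotientGroup.mk_surjective x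
    obtain ⟨y, hy⟩ := norm_class_range ι hι h x
    refine ⟨(y : ClassGroup (𝓞 (IntermediateField.fixedField (Subgroup.zpowers (ι h)))) ⧸
        classesAbove p (IntermediateField.fixedField (Subgroup.zpowers (ι h)))), ?_⟩
    rw [qmap_mk, hy]
    exact map_prod (QuotientGroup.mk' (classesAbove p N)) _ _
  have h1 : ∀ x : ClassGroup (𝓞 N) ⧸ classesAbove p N, ∃ z, x * z ^ p ∈ Ψ.range := by
    intro x
    refine ⟨∏ g : G, (act g x) ^ y g, ?_⟩
    have h2 := rel_apply T act hact c x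
    rw [Finset.prod_congr rfl fun g _ => congrArg _ (hc g)] at h2
    have h3 : ∏ g : G, (act g x) ^ ((if g = 1 then 1 else 0) + (p : ℤ) * y g) =
        x * (∏ g : G, (act g x) ^ y g) ^ p := by
      rw [← Finset.prod_pow]
      have h4 : ∀ g : G, (act g x) ^ ((if g = 1 then 1 else 0) + (p : ℤ) * y g) =
          (if g = 1 then x else 1) * ((act g x) ^ y g) ^ p := by
        intro g
        rw [zpow_add, mul_comm (p : ℤ), zpow_mul _ (y g) (p : ℤ), zpow_natCast]
        by_cases hg : g = 1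
        · simp [hg, hact1]
        · simp [hg]
      rw [Finset.prod_congr rfl fun g _ => h4 g, Finset.prod_mul_distrib]
      congr 1
      simp
    rw [← h3, ← h2]
    choose b hb using fun k : G × T × G => hnr (k.2.1 : G) (act k.2.2 x)
    refine ⟨fun k => (b k) ^ (c k), ?_⟩
    rw [hΨ]
    refine Finset.prod_congr rfl fun k _ => ?_
    rw [map_zpow, map_zpow]
    congr 2
    exact hb k
  unfold torsionCard
  refine (tors_le_of_gen p Ψ.range h1).trans ?_
  refine (tors_le_of_surj p Ψ.rangeRestrict Ψ.rangeRestrict_surjective).trans ?_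
  exact le_of_eq (tors_pi p B)

end

end Pool.Agent.R493.MU
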