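import Pool.Agent.R493.MU.Z
import Pool.Agent.R493.MU.H

set_option autoImplicit false

namespace Pool.Agent.R493.MU

open Finset NumberField

/-- `mu_p = 0`: the layers have boundedly many characters of order `p` unramified outside `p`. -/
def MuVanishesX (p : ℕ) (F : IntermediateField ℚ Om) : Prop :=
  ∃ C : ℕ, ∀ (m : ℕ) (E : IntermediateField ℚ Om),
    E ≤ IntermediateField.adjoin ℚ {z : Om | z ^ (p ^ (m + 1)) = 1} →
    Module.finrank ℚ E = p ^ m → Finite (V p (F ⊔ E)) ∧ Nat.card (V p (F ⊔ E)) ≤ C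

theorem fpf_muX (p : ℕ) [Fact p.Prime] (F : IntermediateField ℚ Om) [FiniteDimensional ℚ F]
    (G : Subgroup (F ≃ₐ[ℚ] F)) (hp : ¬ p ∣ Nat.card G)
    (hG : ∀ H : Subgroup (F ≃ₐ[ℚ] F), H ≤ G → (Nat.card H).Prime →
      MuVanishesX p (fixedIn F H))
    (hF : ¬ MuVanishesX p F) :
    ∃ (W : Type) (_ : AddCommGroup W) (_ : Module (ZMod p) W) (_ : FiniteDimensional (ZMod p) W)
      (ρ : Representation (ZMod p) G W), Nontrivial W ∧
        ∀ g : G, g ≠ 1 → ∀ w, ρ g w = w → w = 0 := by
  classical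
  have hfG : Finite (F ≃ₐ[ℚ] F) := inferInstance
  have : Fintype G := Fintype.ofFinite G
  let T : Set G := {t | (orderOf t).Prime}
  have : Fintype T := Fintype.ofFinite T
  have hT : ∀ t ∈ T, ¬ p ∣ orderOf t := fun t _ h => hp (h.trans (orderOf_dvd_natCard t))
  rcases fpf_or_relation p G T hT with ⟨W, i1, i2, i3, ρ, hW, hρ⟩ | ⟨c, y, hc⟩
  · refine ⟨W, i1, i2, i3, ρ, hW, fun g hg w hw => ?_⟩
    have h1 : orderOf g ≠ 1 := by rwa [Ne, orderOf_eq_one_iff]
    have hq := Nat.minFac_prime h1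
    obtain ⟨k, hk⟩ := Nat.minFac_dvd (orderOf g)
    have hk0 : k ≠ 0 := by
      rintro rfl
      rw [mul_zero] at hk
      exact (orderOf_pos g).ne' hk
    have h2 : orderOf (g ^ k) = (orderOf g).minFac := by
      rw [orderOf_pow' g hk0]
      have h3 : Nat.gcd (orderOf g) k = k := Nat.gcd_eq_right ⟨_, by rw [mul_comm]; exact hk⟩
      rw [h3]
      conv_lhs => rw [hk]
      exact Nat.mul_div_cancel _ (Nat.pos_of_ne_zero hk0)
    have h3 : g ^ k ∈ T := by
      show (orderOf (g ^ k)).Prime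
      rw [h2]; exact hq
    have h4 : ∀ i : ℕ, ρ (g ^ i) w = w := by
      intro i
      induction i with
      | zero => simp
      | succ i ih => rw [pow_succ, map_mul, Module.End.mul_apply, hw, ih]
    exact hρ _ h3 w (h4 k)
  · exfalso
    apply hF
    have h1 : ∀ t : T, MuVanishesX p (fixedIn F (Subgroup.zpowers ((t : G) : F ≃ₐ[ℚ] F))) := by
      intro t
      apply hG
      · rw [Subgroup.zpowers_le]
        exact (t : G).2
      · rw [Nat.card_zpowers, Subgroup.orderOf_coe]
        exact t.2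
    choose C hC using h1
    refine ⟨∏ k : G × T × G, C k.2.1, fun m E hE hfr => ?_⟩
    have hp0 : p ≠ 0 := (Fact.out : p.Prime).ne_zero
    have hfin : FiniteDimensional ℚ E := by
      apply Module.finite_of_finrank_pos
      rw [hfr]
      exact pow_pos (Nat.pos_of_ne_zero hp0) m
    have hab : IsAbelianGalois ℚ E := layer_abelian _ (pow_ne_zero _ hp0) E hE
    have hfs : FiniteDimensional ℚ ↥(F ⊔ E) := IntermediateField.finiteDimensional_sup F E
    have hcop : Nat.Coprime (Nat.card G) (Module.finrank ℚ E) := by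
      rw [hfr]
      exact Nat.Coprime.pow_right m (((Fact.out : p.Prime).coprime_iff_not_dvd.2 hp).symm)
    obtain ⟨ι, hι, hτ⟩ := exists_action F E G hcop
    choose τ hτF hτE hτι using hτ
    have hM : ∀ (t : T) (x : Om),
        x ∈ fixedIn F (Subgroup.zpowers ((t : G) : F ≃ₐ[ℚ] F)) ⊔ E ↔
          x ∈ F ⊔ E ∧ τ (t : G) x = x := by
      intro t x
      have h2 := fixed_eq F E ((t : G) : F ≃ₐ[ℚ] F) (isOfFinOrder_of_finite _)
        (ι (t : G)) (τ t) (hτF t) (hτE t) (hτι t)
      have h3 : x ∈ fixedIn F (Subgroup.zpowers ((t : G) : F ≃ₐ[ℚ] F)) ⊔ E ↔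
          x ∈ IntermediateField.lift
            (IntermediateField.fixedField (Subgroup.zpowers (ι (t : G)))) := by
        rw [h2]
        rfl
      rw [h3]
      have hfix : ∀ z : ↥(F ⊔ E), z ∈ IntermediateField.fixedField (Subgroup.zpowers (ι (t : G))) ↔
          ι (t : G) z = z := by
        intro z
        rw [IntermediateField.mem_fixedField_iff]
        constructor
        · intro h1
          exact h1 _ (Subgroup.mem_zpowers _)
        · intro h1 g hg
          have h3 : Subgroup.zpowers (ι (t : G)) ≤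
              MulAction.stabilizer (↥(F ⊔ E) ≃ₐ[ℚ] ↥(F ⊔ E)) z := by
            rw [Subgroup.zpowers_le]
            exact h1
          exact h3 hg
      constructor
      · rintro ⟨z, hz, rfl⟩
        refine ⟨z.2, ?_⟩
        have h4 := (hfix z).1 hz
        have h5 := hτι (t : G) z
        rw [h4] at h5
        exact h5.symm
      · rintro ⟨hx, h4⟩
        refine ⟨⟨x, hx⟩, ?_, rfl⟩
        apply (hfix ⟨x, hx⟩).2
        apply Subtype.ext
        rw [hτι]
        exact h4
    obtain ⟨h2, h3⟩ := V_ineq p T (fun t ht => ⟨ht, hT t ht⟩) c y hc (F ⊔ E) τ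
      (fun g x hx => by
        rw [← hτι g ⟨x, hx⟩]
        exact (ι g ⟨x, hx⟩).2)
      (fun x hx => by
        rw [← hτι 1 ⟨x, hx⟩, map_one]
        rfl)
      (fun g h x hx => by
        rw [← hτι (g * h) ⟨x, hx⟩, map_mul, AlgEquiv.mul_apply, hτι g, hτι h])
      (fun t => fixedIn F (Subgroup.zpowers ((t : G) : F ≃ₐ[ℚ] F)) ⊔ E) hM
      (fun t => (hC t m E hE hfr).1)
    refine ⟨h2, h3.trans ?_⟩
    apply Finset.prod_le_prod'
    intro k _
    exact (hC k.2.1 m E hE hfr).2

end Pool.Agent.R493.MU
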