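import Mathlib

set_option autoImplicit false

namespace Pool.Agent.R493.MU

/-- Extension of an invariant homomorphism to a cyclic overgroup of order prime to `p`. -/
theorem exists_ext {Γ A : Type} [Group Γ] [CommGroup A] (U' : Subgroup Γ) (τ : Γ)
    (hτ : ∀ v ∈ U', τ * v * τ⁻¹ ∈ U') (hτ' : ∀ v ∈ U', τ⁻¹ * v * τ ∈ U') (l : ℕ)
    (hl : τ ^ l ∈ U') (ψ : U' →* A)
    (hψ : ∀ (v : Γ) (h : v ∈ U') (h' : τ * v * τ⁻¹ ∈ U'), ψ ⟨_, h'⟩ = ψ ⟨v, h⟩)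
    (p m : ℕ) (hA : ∀ a : A, a ^ p = 1) (hm : l * m ≡ 1 [MOD p]) :
    ∃ φ : ↥(U' ⊔ Subgroup.zpowers τ) →* A,
      (∀ (u : ↥(U' ⊔ Subgroup.zpowers τ)), ∃ h : (u : Γ) ^ l ∈ U', φ u = (ψ ⟨(u : Γ) ^ l, h⟩) ^ m) ∧
      (∀ (v : Γ) (hv : v ∈ U') (hv2 : v ∈ U' ⊔ Subgroup.zpowers τ), φ ⟨v, hv2⟩ = ψ ⟨v, hv⟩) := by
  classical
  -- conjugation by powers of `τ`
  have hzU : ∀ (i : ℤ), ∀ v ∈ U', τ ^ i * v * (τ ^ i)⁻¹ ∈ U' := by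
    have hn : ∀ (n : ℕ), ∀ v ∈ U', τ ^ n * v * (τ ^ n)⁻¹ ∈ U' := by
      intro n
      induction n with
      | zero => intro v hv; simpa using hv
      | succ n ih =>
        intro v hv
        have h1 := hτ _ (ih v hv)
        have h2 : τ ^ (n + 1) * v * (τ ^ (n + 1))⁻¹ = τ * (τ ^ n * v * (τ ^ n)⁻¹) * τ⁻¹ := by
          rw [pow_succ']; group
        rw [h2]; exact h1
    have hn' : ∀ (n : ℕ), ∀ v ∈ U', (τ ^ n)⁻¹ * v * (τ ^ n) ∈ U' := by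
      intro n
      induction n with
      | zero => intro v hv; simpa using hv
      | succ n ih =>
        intro v hv
        have h1 := ih _ (hτ' v hv)
        have h2 : (τ ^ (n + 1))⁻¹ * v * (τ ^ (n + 1)) = (τ ^ n)⁻¹ * (τ⁻¹ * v * τ) * τ ^ n := by
          rw [pow_succ']; group
        rw [h2]; exact h1
    intro i v hv
    obtain ⟨n, rfl | rfl⟩ := i.eq_nat_or_neg
    · have := hn n v hv
      rw [zpow_natCast]; exact this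
    · have := hn' n v hv
      rw [zpow_neg, zpow_natCast, inv_inv]; exact this
  have hψn : ∀ (n : ℕ) (v : Γ) (h : v ∈ U') (h' : τ ^ n * v * (τ ^ n)⁻¹ ∈ U'),
      ψ ⟨_, h'⟩ = ψ ⟨v, h⟩ := by
    intro n
    induction n with
    | zero =>
      intro v h h'
      congr 1
      apply Subtype.ext
      simp
    | succ n ih =>
      intro v h h'
      have h0 : τ ^ n * v * (τ ^ n)⁻¹ ∈ U' := by
        have := hzU n v h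
        rwa [zpow_natCast] at this
      have h2 : τ ^ (n + 1) * v * (τ ^ (n + 1))⁻¹ = τ * (τ ^ n * v * (τ ^ n)⁻¹) * τ⁻¹ := by
        rw [pow_succ']; group
      have h3 := hψ _ h0 (hτ _ h0)
      rw [ih v h h0] at h3
      rw [← h3]
      congr 1
      exact Subtype.ext h2
  have hψz : ∀ (i : ℤ) (v : Γ) (h : v ∈ U') (h' : τ ^ i * v * (τ ^ i)⁻¹ ∈ U'),
      ψ ⟨_, h'⟩ = ψ ⟨v, h⟩ := by
    intro i v h h'
    obtain ⟨n, rfl | rfl⟩ := i.eq_nat_or_neg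
    · have h0 : τ ^ n * v * (τ ^ n)⁻¹ ∈ U' := by rwa [zpow_natCast] at h'
      rw [← hψn n v h h0]
      congr 1
      apply Subtype.ext
      simp only [zpow_natCast]
    · have h2 : τ ^ n * (τ ^ (-(n : ℤ)) * v * (τ ^ (-(n : ℤ)))⁻¹) * (τ ^ n)⁻¹ = v := by
        rw [zpow_neg, zpow_natCast]; group
      have h3 := hψn n _ h' (by rw [h2]; exact h)
      rw [← h3]
      congr 1
      exact Subtype.ext h2
  -- description of the elements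
  let S : Subgroup Γ :=
    { carrier := {u | ∃ v ∈ U', ∃ i : ℤ, u = v * τ ^ i}
      mul_mem' := by
        rintro _ _ ⟨v, hv, i, rfl⟩ ⟨w, hw, j, rfl⟩
        refine ⟨v * (τ ^ i * w * (τ ^ i)⁻¹), U'.mul_mem hv (hzU i w hw), i + j, ?_⟩
        rw [zpow_add]; group
      one_mem' := ⟨1, U'.one_mem, 0, by simp⟩
      inv_mem' := by
        rintro _ ⟨v, hv, i, rfl⟩
        refine ⟨τ ^ (-i) * v⁻¹ * (τ ^ (-i))⁻¹, hzU (-i) _ (U'.inv_mem hv), -i, ?_⟩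
        rw [zpow_neg]; group }
  have hel : ∀ u ∈ U' ⊔ Subgroup.zpowers τ, ∃ v ∈ U', ∃ i : ℤ, u = v * τ ^ i := by
    have hle : U' ⊔ Subgroup.zpowers τ ≤ S := by
      apply sup_le
      · intro x hx
        exact ⟨x, hx, 0, by simp⟩
      · rw [Subgroup.zpowers_le]
        exact ⟨1, U'.one_mem, 1, by simp⟩
    exact fun u hu => hle hu
  have hcomm : ∀ u ∈ U' ⊔ Subgroup.zpowers τ, ∀ u' ∈ U' ⊔ Subgroup.zpowers τ,
      ∃ h : u * u' * (u' * u)⁻¹ ∈ U', ψ ⟨_, h⟩ = 1 := by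
    intro u hu u' hu'
    obtain ⟨v, hv, i, rfl⟩ := hel u hu
    obtain ⟨w, hw, j, rfl⟩ := hel u' hu'
    have h1 := hzU i w hw
    have h2 := hzU j v hv
    have h3 : v * τ ^ i * (w * τ ^ j) * (w * τ ^ j * (v * τ ^ i))⁻¹ =
        v * (τ ^ i * w * (τ ^ i)⁻¹) * (τ ^ j * v * (τ ^ j)⁻¹)⁻¹ * w⁻¹ := by
      group
    have h4 : v * (τ ^ i * w * (τ ^ i)⁻¹) * (τ ^ j * v * (τ ^ j)⁻¹)⁻¹ * w⁻¹ ∈ U' :=
      U'.mul_mem (U'.mul_mem (U'.mul_mem hv h1) (U'.inv_mem h2)) (U'.inv_mem hw)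
    refine ⟨h3 ▸ h4, ?_⟩
    have h5 : (⟨v * τ ^ i * (w * τ ^ j) * (w * τ ^ j * (v * τ ^ i))⁻¹, h3 ▸ h4⟩ : U') =
        ⟨v, hv⟩ * ⟨_, h1⟩ * (⟨_, h2⟩ : U')⁻¹ * (⟨w, hw⟩ : U')⁻¹ := Subtype.ext h3
    rw [h5, map_mul, map_mul, map_mul, map_inv, map_inv, hψz i w hw h1, hψz j v hv h2]
    rw [mul_comm (ψ ⟨v, hv⟩) (ψ ⟨w, hw⟩), mul_inv_cancel_right, mul_inv_cancel]
  have hpow : ∀ u ∈ U' ⊔ Subgroup.zpowers τ, u ^ l ∈ U' := by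
    intro u hu
    obtain ⟨v, hv, i, rfl⟩ := hel u hu
    have h1 : ∀ n : ℕ, ∃ w ∈ U', (v * τ ^ i) ^ n = w * τ ^ (i * n) := by
      intro n
      induction n with
      | zero => exact ⟨1, U'.one_mem, by simp⟩
      | succ n ih =>
        obtain ⟨w, hw, h⟩ := ih
        refine ⟨w * (τ ^ (i * n) * v * (τ ^ (i * n))⁻¹), U'.mul_mem hw (hzU _ v hv), ?_⟩
        rw [pow_succ, h, Nat.cast_succ, mul_add, mul_one, zpow_add]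
        group
    obtain ⟨w, hw, h⟩ := h1 l
    rw [h]
    apply U'.mul_mem hw
    rw [mul_comm, zpow_mul, zpow_natCast]
    exact U'.zpow_mem hl i
  -- the quotient
  let K0 : Subgroup Γ := ψ.ker.map U'.subtype
  have hK0 : ∀ w, w ∈ K0 ↔ ∃ h : w ∈ U', ψ ⟨w, h⟩ = 1 := by
    intro w
    constructor
    · rintro ⟨x, hx, rfl⟩
      exact ⟨x.2, hx⟩
    · rintro ⟨h, h1⟩
      exact ⟨⟨w, h⟩, h1, rfl⟩
  let N0 : Subgroup ↥(U' ⊔ Subgroup.zpowers τ) := K0.subgroupOf (U' ⊔ Subgroup.zpowers τ)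
  have hN0 : N0.Normal := by
    constructor
    rintro ⟨n, hnU⟩ hn ⟨g, hg⟩
    rw [Subgroup.mem_subgroupOf] at hn ⊢
    obtain ⟨h1, h2⟩ := (hK0 n).1 hn
    obtain ⟨v, hv, i, rfl⟩ := hel g hg
    have h3 := hzU i n h1
    have h4 : v * τ ^ i * n * (v * τ ^ i)⁻¹ = v * (τ ^ i * n * (τ ^ i)⁻¹) * v⁻¹ := by group
    have h5 : v * (τ ^ i * n * (τ ^ i)⁻¹) * v⁻¹ ∈ U' := U'.mul_mem (U'.mul_mem hv h3) (U'.inv_mem hv)
    have h8 : v * τ ^ i * n * (v * τ ^ i)⁻¹ ∈ U' := h4 ▸ h5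
    show v * τ ^ i * n * (v * τ ^ i)⁻¹ ∈ K0
    apply (hK0 _).2
    refine ⟨h8, ?_⟩
    have h6 : (⟨v * τ ^ i * n * (v * τ ^ i)⁻¹, h8⟩ : U') =
        ⟨v, hv⟩ * ⟨_, h3⟩ * (⟨v, hv⟩ : U')⁻¹ := Subtype.ext h4
    rw [h6, map_mul, map_mul, map_inv, hψz i n h1 h3, h2, mul_one, mul_inv_cancel]
  have hmul : ∀ x y : ↥(U' ⊔ Subgroup.zpowers τ),
      ∃ (h1 : ((x * y : ↥(U' ⊔ Subgroup.zpowers τ)) : Γ) ^ l ∈ U') (h2 : (x : Γ) ^ l ∈ U')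
        (h3 : (y : Γ) ^ l ∈ U'), ψ ⟨_, h1⟩ = ψ ⟨_, h2⟩ * ψ ⟨_, h3⟩ := by
    intro x y
    have hc : Commute (x : ↥(U' ⊔ Subgroup.zpowers τ) ⧸ N0) (y : ↥(U' ⊔ Subgroup.zpowers τ) ⧸ N0) := by
      show (x : ↥(U' ⊔ Subgroup.zpowers τ) ⧸ N0) * (y : ↥(U' ⊔ Subgroup.zpowers τ) ⧸ N0) = _
      rw [← QuotientGroup.mk_mul, ← QuotientGroup.mk_mul, QuotientGroup.eq]
      show (((x * y)⁻¹ * (y * x) : ↥(U' ⊔ Subgroup.zpowers τ)) : Γ) ∈ K0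
      obtain ⟨h1, h2⟩ := hcomm (y : Γ)⁻¹ (Subgroup.inv_mem _ y.2) (x : Γ)⁻¹ (Subgroup.inv_mem _ x.2)
      have h3 : (((x * y)⁻¹ * (y * x) : ↥(U' ⊔ Subgroup.zpowers τ)) : Γ) =
          (y : Γ)⁻¹ * (x : Γ)⁻¹ * ((x : Γ)⁻¹ * (y : Γ)⁻¹)⁻¹ := by
        push_cast
        group
      rw [h3]
      exact (hK0 _).2 ⟨h1, h2⟩
    have h1 := hc.mul_pow l
    rw [← QuotientGroup.mk_mul, ← QuotientGroup.mk_pow, ← QuotientGroup.mk_pow,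
      ← QuotientGroup.mk_pow, ← QuotientGroup.mk_mul, eq_comm, QuotientGroup.eq] at h1
    have h2 : (((x ^ l * y ^ l)⁻¹ * (x * y) ^ l : ↥(U' ⊔ Subgroup.zpowers τ)) : Γ) ∈ K0 := h1
    obtain ⟨h3, h4⟩ := (hK0 _).1 h2
    have hx := hpow x x.2
    have hy := hpow y y.2
    have hxy := hpow (x * y : ↥(U' ⊔ Subgroup.zpowers τ)) (x * y).2
    refine ⟨hxy, hx, hy, ?_⟩
    have h5 : (⟨_, h3⟩ : U') = ((⟨_, hx⟩ : U') * ⟨_, hy⟩)⁻¹ * ⟨_, hxy⟩ := by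
      apply Subtype.ext
      push_cast
      rfl
    rw [h5, map_mul, map_inv, inv_mul_eq_one] at h4
    rw [← h4, map_mul]
  let φ : ↥(U' ⊔ Subgroup.zpowers τ) →* A := MonoidHom.mk'
    (fun u => (ψ ⟨(u : Γ) ^ l, hpow u u.2⟩) ^ m) (by
      intro x y
      obtain ⟨h1, h2, h3, h4⟩ := hmul x y
      show (ψ ⟨_, _⟩) ^ m = (ψ ⟨_, _⟩) ^ m * (ψ ⟨_, _⟩) ^ m
      rw [← mul_pow, ← h4])
  refine ⟨φ, fun u => ⟨hpow u u.2, rfl⟩, fun v hv hv2 => ?_⟩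
  show (ψ ⟨v ^ l, hpow v hv2⟩) ^ m = ψ ⟨v, hv⟩
  have h1 : (⟨v ^ l, hpow v hv2⟩ : U') = (⟨v, hv⟩ : U') ^ l := Subtype.ext rfl
  rw [h1, map_pow, ← pow_mul]
  conv_rhs => rw [← pow_one (ψ ⟨v, hv⟩)]
  rw [pow_eq_pow_iff_modEq]
  exact hm.of_dvd (orderOf_dvd_of_pow_eq_one (hA _))

end Pool.Agent.R493.MU
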