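import Pool.Agent.R493.MU.D
import Pool.Agent.R493.MU.X

set_option autoImplicit false

namespace Pool.Agent.R493.MU

open Finset NumberField

/-- The absolute Galois group. -/
abbrev Gam : Type := Om ≃ₐ[ℚ] Om

/-- `σ` lies in the inertia group of `𝔓`. -/
def IsInertial (P : Ideal (𝓞 Om)) (σ : Gam) : Prop :=
  ∀ x y : 𝓞 Om, (y : Om) = σ (x : Om) → y - x ∈ P

/-- The characters of order dividing `p` of the absolute Galois group of `N` which factor through a
finite quotient and are unramified outside `p`. -/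
def IsUnramChar (p : ℕ) (N : IntermediateField ℚ Om)
    (χ : N.fixingSubgroup →* Multiplicative (ZMod p)) : Prop :=
  (∃ L : IntermediateField ℚ Om, FiniteDimensional ℚ L ∧
    ∀ σ : N.fixingSubgroup, (∀ x ∈ L, (σ : Gam) x = x) → χ σ = 1) ∧
  ∀ P : Ideal (𝓞 Om), P.IsMaximal → (p : 𝓞 Om) ∉ P → ∀ σ : N.fixingSubgroup,
    IsInertial P σ → χ σ = 1

/-- The group of these characters. -/
def V (p : ℕ) (N : IntermediateField ℚ Om) :
    Subgroup (N.fixingSubgroup →* Multiplicative (ZMod p)) where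
  carrier := {χ | IsUnramChar p N χ}
  one_mem' := ⟨⟨⊥, inferInstance, fun _ _ => rfl⟩, fun _ _ _ _ _ => rfl⟩
  mul_mem' := by
    rintro χ χ' ⟨⟨L, hL, h1⟩, h2⟩ ⟨⟨L', hL', h1'⟩, h2'⟩
    refine ⟨⟨L ⊔ L', IntermediateField.finiteDimensional_sup L L', fun σ hσ => ?_⟩,
      fun P hP hp σ hσ => ?_⟩
    · rw [MonoidHom.mul_apply, h1 σ fun x hx => hσ x ((le_sup_left : L ≤ L ⊔ L') hx),
        h1' σ fun x hx => hσ x ((le_sup_right : L' ≤ L ⊔ L') hx), one_mul]
    · rw [MonoidHom.mul_apply, h2 P hP hp σ hσ, h2' P hP hp σ hσ, one_mul]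
  inv_mem' := by
    rintro χ ⟨⟨L, hL, h1⟩, h2⟩
    refine ⟨⟨L, hL, fun σ hσ => ?_⟩, fun P hP hp σ hσ => ?_⟩
    · rw [MonoidHom.inv_apply, h1 σ hσ, inv_one]
    · rw [MonoidHom.inv_apply, h2 P hP hp σ hσ, inv_one]

theorem inertial_pow (P : Ideal (𝓞 Om)) (σ : Gam) (h : IsInertial P σ) (n : ℕ) :
    IsInertial P (σ ^ n) := by
  induction n with
  | zero =>
    intro x y hxy
    have h1 : y = x := by
      apply RingOfIntegers.coe_injective
      simpa using hxy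
    rw [h1, sub_self]
    exact P.zero_mem
  | succ n ih =>
    intro x y hxy
    -- `σ ^ (n+1) x = σ ^ n (σ x)`
    obtain ⟨z, hz⟩ : ∃ z : 𝓞 Om, (z : Om) = σ (x : Om) :=
      ⟨⟨σ (x : Om), (x.2.map (σ : Om →ₐ[ℚ] Om).toRingHom.toIntAlgHom)⟩, rfl⟩
    have h1 := h x z hz
    have h2 := ih z y (by rw [hxy, pow_succ, AlgEquiv.mul_apply, hz])
    have h3 : y - x = (y - z) + (z - x) := by ring
    rw [h3]
    exact P.add_mem h2 h1

theorem inertial_conj (P : Ideal (𝓞 Om)) (σ τ : Gam) (h : IsInertial P σ) :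
    IsInertial (P.comap (RingOfIntegers.mapRingEquiv (τ : Om ≃+* Om))) (τ⁻¹ * σ * τ) := by
  intro x y hxy
  rw [Ideal.mem_comap, map_sub]
  apply h
  show τ (y : Om) = σ (τ (x : Om))
  rw [hxy, AlgEquiv.mul_apply, AlgEquiv.mul_apply]
  exact τ.apply_symm_apply _

section

variable (N : IntermediateField ℚ Om)

/-- Conjugation by an automorphism which stabilises `N`. -/
noncomputable def cg (τ : Gam) (hτ : ∀ x ∈ N, τ x ∈ N) : N.fixingSubgroup →* N.fixingSubgroup where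
  toFun u := ⟨τ⁻¹ * u * τ, by
    rw [IntermediateField.mem_fixingSubgroup_iff]
    intro x hx
    have h1 := (IntermediateField.mem_fixingSubgroup_iff _ _).1 u.2 (τ x) (hτ x hx)
    show τ⁻¹ ((u : Gam) (τ x)) = x
    rw [h1]
    exact τ.symm_apply_apply x⟩
  map_one' := by
    apply Subtype.ext
    simp
  map_mul' u v := by
    apply Subtype.ext
    push_cast
    group

/-- The action on characters. -/
noncomputable def cj (p : ℕ) (τ : Gam) (hτ : ∀ x ∈ N, τ x ∈ N) :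
    (N.fixingSubgroup →* Multiplicative (ZMod p)) →*
      (N.fixingSubgroup →* Multiplicative (ZMod p)) :=
  MonoidHom.compHom' (cg N τ hτ)

theorem cj_apply (p : ℕ) (τ : Gam) (hτ : ∀ x ∈ N, τ x ∈ N)
    (χ : N.fixingSubgroup →* Multiplicative (ZMod p)) (u : N.fixingSubgroup) :
    cj N p τ hτ χ u = χ (cg N τ hτ u) := rfl

theorem cj_mem (p : ℕ) (τ : Gam) (hτ : ∀ x ∈ N, τ x ∈ N)
    (χ : N.fixingSubgroup →* Multiplicative (ZMod p)) (hχ : χ ∈ V p N) : cj N p τ hτ χ ∈ V p N := by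
  obtain ⟨⟨L, hL, h1⟩, h2⟩ := hχ
  refine ⟨⟨L.map (τ : Om →ₐ[ℚ] Om), inferInstance, fun σ hσ => ?_⟩, fun P hP hp σ hσ => ?_⟩
  · rw [cj_apply]
    apply h1
    intro x hx
    show τ⁻¹ ((σ : Gam) (τ x)) = x
    rw [hσ (τ x) ⟨x, hx, rfl⟩]
    exact τ.symm_apply_apply x
  · rw [cj_apply]
    have hP' : (P.comap (RingOfIntegers.mapRingEquiv (τ : Om ≃+* Om))).IsMaximal :=
      Ideal.comap_isMaximal_of_equiv _
    refine h2 (P.comap (RingOfIntegers.mapRingEquiv (τ : Om ≃+* Om))) hP' ?_ _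
      (inertial_conj P σ τ hσ)
    rw [Ideal.mem_comap, map_natCast]
    exact hp

theorem cj_mul (p : ℕ) (τ τ' τ'' : Gam) (hτ : ∀ x ∈ N, τ x ∈ N) (hτ' : ∀ x ∈ N, τ' x ∈ N)
    (hτ'' : ∀ x ∈ N, τ'' x ∈ N) (h : ∀ x ∈ N, τ'' x = τ (τ' x))
    (χ : N.fixingSubgroup →* Multiplicative (ZMod p)) :
    cj N p τ'' hτ'' χ = cj N p τ hτ (cj N p τ' hτ' χ) := by
  apply MonoidHom.ext
  intro u
  rw [cj_apply, cj_apply, cj_apply]
  have hv : (τ * τ')⁻¹ * τ'' ∈ N.fixingSubgroup := by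
    rw [IntermediateField.mem_fixingSubgroup_iff]
    intro x hx
    show (τ * τ')⁻¹ (τ'' x) = x
    rw [h x hx]
    exact (τ * τ').symm_apply_apply x
  have h1 : cg N τ'' hτ'' u = (⟨_, hv⟩ : N.fixingSubgroup)⁻¹ * cg N τ' hτ' (cg N τ hτ u) * ⟨_, hv⟩ := by
    apply Subtype.ext
    show τ''⁻¹ * (u : Gam) * τ'' = ((τ * τ')⁻¹ * τ'')⁻¹ * (τ'⁻¹ * (τ⁻¹ * (u : Gam) * τ) * τ') *
      ((τ * τ')⁻¹ * τ'')
    group
  rw [h1, map_mul, map_mul, map_inv, mul_comm, mul_inv_cancel_left]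

theorem cj_one (p : ℕ) (τ : Gam) (hτ : ∀ x ∈ N, τ x ∈ N) (h : ∀ x ∈ N, τ x = x)
    (χ : N.fixingSubgroup →* Multiplicative (ZMod p)) : cj N p τ hτ χ = χ := by
  apply MonoidHom.ext
  intro u
  rw [cj_apply]
  have hv : τ ∈ N.fixingSubgroup := (IntermediateField.mem_fixingSubgroup_iff _ _).2 h
  have h1 : cg N τ hτ u = (⟨τ, hv⟩ : N.fixingSubgroup)⁻¹ * u * ⟨τ, hv⟩ := rfl
  rw [h1, map_mul, map_mul, map_inv, mul_comm, mul_inv_cancel_left]

/-- Galois theory: the fixing subgroup of the fixed field. -/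
theorem fixing_eq [FiniteDimensional ℚ N] (M : IntermediateField ℚ Om) (τ : Gam)
    (hM : ∀ x, x ∈ M ↔ x ∈ N ∧ τ x = x) :
    M.fixingSubgroup = N.fixingSubgroup ⊔ Subgroup.zpowers τ := by
  have hgal : IsGalois ℚ Om := ⟨⟩
  have hopen : IsOpen ((N.fixingSubgroup ⊔ Subgroup.zpowers τ : Subgroup Gam) : Set Gam) :=
    Subgroup.isOpen_mono le_sup_left N.fixingSubgroup_isOpen
  have hclosed : IsClosed ((N.fixingSubgroup ⊔ Subgroup.zpowers τ : Subgroup Gam) : Set Gam) :=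
    Subgroup.isClosed_of_isOpen _ hopen
  have h1 := InfiniteGalois.fixingSubgroup_fixedField
    (⟨N.fixingSubgroup ⊔ Subgroup.zpowers τ, hclosed⟩ : ClosedSubgroup Gam)
  have h2 : IntermediateField.fixedField (N.fixingSubgroup ⊔ Subgroup.zpowers τ) = M := by
    ext x
    rw [IntermediateField.mem_fixedField_iff, hM]
    constructor
    · intro h
      refine ⟨?_, h τ ((le_sup_right : Subgroup.zpowers τ ≤ _) (Subgroup.mem_zpowers τ))⟩
      rw [← InfiniteGalois.fixedField_fixingSubgroup N, IntermediateField.mem_fixedField_iff]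
      exact fun f hf => h f ((le_sup_left : N.fixingSubgroup ≤ _) hf)
    · rintro ⟨h3, h4⟩ f hf
      have h5 : N.fixingSubgroup ⊔ Subgroup.zpowers τ ≤ MulAction.stabilizer Gam x := by
        apply sup_le
        · intro g hg
          exact (IntermediateField.mem_fixingSubgroup_iff _ _).1 hg x h3
        · rw [Subgroup.zpowers_le]
          exact h4
      exact h5 hf
  rw [← h2]
  exact h1

end

end Pool.Agent.R493.MU
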