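import Pool.Agent.R493.MU.Y
import Pool.Agent.R493.MU.F

set_option autoImplicit false

namespace Pool.Agent.R493.MU

open Finset NumberField

/-- Extension of invariant characters. -/
theorem ext_V (p : ℕ) [Fact p.Prime] (N M : IntermediateField ℚ Om) [FiniteDimensional ℚ N]
    (τ : Gam) (hτ : ∀ x ∈ N, τ x ∈ N) (hτ' : ∀ x ∈ N, τ⁻¹ x ∈ N)
    (hM : ∀ x, x ∈ M ↔ x ∈ N ∧ τ x = x) (l : ℕ) (hl : ¬ p ∣ l) (hlp : l.Prime)
    (hτl : ∀ x ∈ N, (τ ^ l) x = x)
    (ψ : N.fixingSubgroup →* Multiplicative (ZMod p)) (hψ : ψ ∈ V p N)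
    (hinv : cj N p τ hτ ψ = ψ) :
    ∃ φ : M.fixingSubgroup →* Multiplicative (ZMod p), φ ∈ V p M ∧
      ∀ (v : Gam) (hv : v ∈ N.fixingSubgroup) (hv2 : v ∈ M.fixingSubgroup),
        φ ⟨v, hv2⟩ = ψ ⟨v, hv⟩ := by
  have hA : ∀ a : Multiplicative (ZMod p), a ^ p = 1 := by
    intro a
    apply Multiplicative.toAdd.injective
    rw [toAdd_pow, toAdd_one]
    simp
  obtain ⟨m, hm⟩ : ∃ m : ℕ, l * m ≡ 1 [MOD p] := by
    have hcop : Nat.Coprime l p := ((Fact.out : p.Prime).coprime_iff_not_dvd.2 hl).symm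
    obtain ⟨m, -, h⟩ := Nat.exists_mul_mod_eq_one_of_coprime hcop (Fact.out : p.Prime).one_lt
    refine ⟨m, ?_⟩
    show l * m % p = 1 % p
    rw [h, Nat.mod_eq_of_lt (Fact.out : p.Prime).one_lt]
  have hconj : ∀ v ∈ N.fixingSubgroup, τ * v * τ⁻¹ ∈ N.fixingSubgroup := by
    intro v hv
    rw [IntermediateField.mem_fixingSubgroup_iff] at hv ⊢
    intro x hx
    show τ (v (τ⁻¹ x)) = x
    rw [hv _ (hτ' x hx)]
    exact τ.apply_symm_apply x
  have hconj' : ∀ v ∈ N.fixingSubgroup, τ⁻¹ * v * τ ∈ N.fixingSubgroup :=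
    fun v hv => (cg N τ hτ ⟨v, hv⟩).2
  have hl' : τ ^ l ∈ N.fixingSubgroup := (IntermediateField.mem_fixingSubgroup_iff _ _).2 hτl
  have hψ' : ∀ (v : Gam) (h : v ∈ N.fixingSubgroup) (h' : τ * v * τ⁻¹ ∈ N.fixingSubgroup),
      ψ ⟨_, h'⟩ = ψ ⟨v, h⟩ := by
    intro v h h'
    have h1 := congrArg (fun f : N.fixingSubgroup →* Multiplicative (ZMod p) =>
      f ⟨_, h'⟩) hinv
    have h2 : cg N τ hτ ⟨_, h'⟩ = ⟨v, h⟩ := by
      apply Subtype.ext
      show τ⁻¹ * (τ * v * τ⁻¹) * τ = v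
      group
    have h3 : ψ (cg N τ hτ ⟨_, h'⟩) = ψ ⟨_, h'⟩ := h1
    rw [h2] at h3
    exact h3.symm
  obtain ⟨φ, hφ1, hφ2⟩ := exists_ext N.fixingSubgroup τ hconj hconj' l hl' ψ hψ' p m hA hm
  have hfix := fixing_eq N M τ hM
  have hle : M.fixingSubgroup ≤ N.fixingSubgroup ⊔ Subgroup.zpowers τ := le_of_eq hfix
  refine ⟨φ.comp (Subgroup.inclusion hle), ?_, ?_⟩
  · obtain ⟨⟨L, hL, h1⟩, h2⟩ := hψ
    refine ⟨⟨L, hL, fun σ hσ => ?_⟩, fun P hP hp σ hσ => ?_⟩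
    · obtain ⟨h, h3⟩ := hφ1 (Subgroup.inclusion hle σ)
      rw [MonoidHom.comp_apply, h3]
      rw [h1 ⟨_, h⟩ ?_, one_pow]
      intro x hx
      have h4 : ∀ n : ℕ, ((σ : Gam) ^ n) x = x := by
        intro n
        induction n with
        | zero => simp
        | succ n ih => rw [pow_succ, AlgEquiv.mul_apply, hσ x hx, ih]
      exact h4 l
    · obtain ⟨h, h3⟩ := hφ1 (Subgroup.inclusion hle σ)
      rw [MonoidHom.comp_apply, h3]
      rw [h2 P hP hp ⟨_, h⟩ (inertial_pow P σ hσ l), one_pow]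
  · intro v hv hv2
    rw [MonoidHom.comp_apply]
    exact hφ2 v hv _

/-- The inequality for the characters. -/
theorem V_ineq (p : ℕ) [Fact p.Prime] {G : Type} [Group G] [Fintype G] [DecidableEq G]
    (T : Set G) [Fintype T] (hT : ∀ t ∈ T, (orderOf t).Prime ∧ ¬ p ∣ orderOf t)
    (c : G × T × G → ℤ) (y : G → ℤ) (hc : ∀ g : G, ∑ x : G × T × G,
      c x * (((range (orderOf (x.2.1 : G))).filter
        (fun i => x.1 * (x.2.1 : G) ^ i * x.2.2 = g)).card : ℤ) =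
          (if g = 1 then 1 else 0) + (p : ℤ) * y g)
    (N : IntermediateField ℚ Om) [FiniteDimensional ℚ N] (τ : G → Gam)
    (hτ : ∀ g, ∀ x ∈ N, τ g x ∈ N) (hone : ∀ x ∈ N, τ 1 x = x)
    (hmul : ∀ g h, ∀ x ∈ N, τ (g * h) x = τ g (τ h x))
    (M : T → IntermediateField ℚ Om) (hM : ∀ (t : T) x, x ∈ M t ↔ x ∈ N ∧ τ (t : G) x = x)
    (hfin : ∀ t : T, Finite (V p (M t))) :
    Finite (V p N) ∧ Nat.card (V p N) ≤ ∏ k : G × T × G, Nat.card (V p (M k.2.1)) := by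
  classical
  have hA : ∀ a : (N.fixingSubgroup →* Multiplicative (ZMod p)), a ^ p = 1 := by
    intro a
    apply MonoidHom.ext
    intro u
    rw [MonoidHom.pow_apply, MonoidHom.one_apply]
    apply Multiplicative.toAdd.injective
    rw [toAdd_pow, toAdd_one]
    simp
  let act : G → ((N.fixingSubgroup →* Multiplicative (ZMod p)) →*
      (N.fixingSubgroup →* Multiplicative (ZMod p))) := fun g => cj N p (τ g) (hτ g)
  have hact : ∀ g h x, act (g * h) x = act g (act h x) := by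
    intro g h x
    exact cj_mul N p (τ g) (τ h) (τ (g * h)) (hτ g) (hτ h) (hτ (g * h)) (hmul g h) x
  have hact1 : ∀ x, act 1 x = x := fun x => cj_one N p (τ 1) (hτ 1) hone x
  have hactm : ∀ g x, x ∈ V p N → act g x ∈ V p N := fun g x hx => cj_mem N p (τ g) (hτ g) x hx
  have hτinv : ∀ g, ∀ x ∈ N, (τ g)⁻¹ x ∈ N := by
    intro g x hx
    have h1 : τ g (τ g⁻¹ x) = x := by
      rw [← hmul g g⁻¹ x hx, mul_inv_cancel, hone x hx]
    have h2 : (τ g)⁻¹ x = τ g⁻¹ x := by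
      conv_lhs => rw [← h1]
      exact (τ g).symm_apply_apply _
    rw [h2]
    exact hτ _ x hx
  have hτpow : ∀ (g : G) (n : ℕ), ∀ x ∈ N, ((τ g) ^ n) x = τ (g ^ n) x := by
    intro g n
    induction n with
    | zero =>
      intro x hx
      rw [pow_zero, pow_zero, hone x hx]
      rfl
    | succ n ih =>
      intro x hx
      rw [pow_succ, AlgEquiv.mul_apply, ih _ (hτ g x hx), pow_succ, hmul _ _ x hx]
  let ψ : G × T × G → (N.fixingSubgroup →* Multiplicative (ZMod p)) →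
      (N.fixingSubgroup →* Multiplicative (ZMod p)) := fun k χ =>
    ∏ i ∈ range (orderOf (k.2.1 : G)), act ((k.2.1 : G) ^ i) (act k.2.2 χ)
  have hψm : ∀ k χ, χ ∈ V p N → ψ k χ ∈ V p N := fun k χ hχ =>
    Subgroup.prod_mem _ fun i _ => hactm _ _ (hactm _ _ hχ)
  have hψinv : ∀ k χ, act (k.2.1 : G) (ψ k χ) = ψ k χ := by
    intro k χ
    simp only [ψ]
    rw [map_prod]
    have h1 : ∀ i : ℕ, act (k.2.1 : G) (act ((k.2.1 : G) ^ i) (act k.2.2 χ)) =
        act ((k.2.1 : G) ^ (i + 1)) (act k.2.2 χ) := by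
      intro i
      rw [← hact, pow_succ']
    rw [Finset.prod_congr rfl fun i _ => h1 i]
    have h2 := Finset.prod_range_succ
      (fun i => act ((k.2.1 : G) ^ i) (act k.2.2 χ)) (orderOf (k.2.1 : G))
    rw [Finset.prod_range_succ'] at h2
    have h3 : act ((k.2.1 : G) ^ (orderOf (k.2.1 : G))) (act k.2.2 χ) =
        act ((k.2.1 : G) ^ 0) (act k.2.2 χ) := by
      rw [pow_orderOf_eq_one, pow_zero]
    rw [h3] at h2
    exact mul_right_cancel h2
  have hid : ∀ χ, ∏ k : G × T × G, (act k.1 (ψ k χ)) ^ (c k) = χ := by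
    intro χ
    have h2 := rel_apply T act hact c χ
    rw [Finset.prod_congr rfl fun g _ => congrArg _ (hc g)] at h2
    refine h2.trans ?_
    have h4 : ∀ g : G, (act g χ) ^ ((if g = 1 then 1 else 0) + (p : ℤ) * y g) =
        (if g = 1 then χ else 1) := by
      intro g
      rw [zpow_add, zpow_mul, zpow_natCast, hA, one_zpow, mul_one]
      by_cases hg : g = 1
      · simp [hg, hact1]
      · simp [hg]
    rw [Finset.prod_congr rfl fun g _ => h4 g]
    simp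
  have hext : ∀ (k : G × T × G) (χ : V p N), ∃ φ : V p (M k.2.1),
      ∀ (v : Gam) (hv : v ∈ N.fixingSubgroup) (hv2 : v ∈ (M k.2.1).fixingSubgroup),
        (φ : (M k.2.1).fixingSubgroup →* Multiplicative (ZMod p)) ⟨v, hv2⟩ =
          ψ k (χ : N.fixingSubgroup →* Multiplicative (ZMod p)) ⟨v, hv⟩ := by
    intro k χ
    obtain ⟨h1, h2⟩ := hT (k.2.1 : G) k.2.1.2
    obtain ⟨φ, hφ, hφ'⟩ := ext_V p N (M k.2.1) (τ (k.2.1 : G)) (hτ _) (hτinv _) (hM k.2.1)
      (orderOf (k.2.1 : G)) h2 h1 (by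
        intro x hx
        rw [hτpow _ _ x hx, pow_orderOf_eq_one, hone x hx]) (ψ k χ) (hψm k χ χ.2) (hψinv k χ)
    exact ⟨⟨φ, hφ⟩, hφ'⟩
  choose Φ hΦ using hext
  have hinj : Function.Injective (fun (χ : V p N) (k : G × T × G) => Φ k χ) := by
    intro χ χ' hχ
    apply Subtype.ext
    rw [← hid χ, ← hid χ']
    refine Finset.prod_congr rfl fun k _ => ?_
    congr 2
    apply MonoidHom.ext
    rintro ⟨v, hv⟩
    have hv2 : v ∈ (M k.2.1).fixingSubgroup := by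
      rw [fixing_eq N (M k.2.1) (τ (k.2.1 : G)) (hM k.2.1)]
      exact (le_sup_left : N.fixingSubgroup ≤ _) hv
    rw [← hΦ k χ v hv hv2, ← hΦ k χ' v hv hv2]
    have h1 := congrFun hχ k
    simp only at h1
    rw [h1]
  have hf : ∀ k : G × T × G, Finite (V p (M k.2.1)) := fun k => hfin k.2.1
  refine ⟨Finite.of_injective _ hinj, ?_⟩
  rw [← Nat.card_pi]
  exact Nat.card_le_card_of_injective _ hinj

end Pool.Agent.R493.MU
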